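import Mathlib

/-!
# The greedy random walk on the ladder is recurrent

The walk is studied through a potential `St.Y` of the form
`21 * x + (sum of a local function over the columns between the walker and the right frontier)
+ (a function of a window of three columns around the walker)`.
Its expected increment is at most `0` in the interior and at most `18 * P(frontier moves)` at the
frontier (`window_check`, a finite check). As `18 < 21`, the product of `Y` with a weight of
order `R ^ (-6/7)`, `R` the largest column visited, is a positive supermartingale which is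
unbounded when the walk escapes to the right; hence the walk does not escape to infinity. A second
supermartingale shows that a neighbour of a vertex visited infinitely often is visited
infinitely often.
-/

set_option linter.unusedSectionVars false

open MeasureTheory Filter ProbabilityTheory Preorder
open scoped ENNReal

namespace Pool.Agent.Results.MP_1d885b_pr.LadderRecurrent

/-- The ladder graph: vertices `(n, i)` with `n` an integer and `i` one of two rows; edges join
`(n, i)` to `(n + 1, i)` and join the two vertices with the same first coordinate. -/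
def ladder : SimpleGraph (ℤ × Bool) where
  Adj u v := (u.2 = v.2 ∧ (v.1 = u.1 + 1 ∨ u.1 = v.1 + 1)) ∨ (u.1 = v.1 ∧ u.2 ≠ v.2)
  symm := ⟨by
    intro u v h
    rcases h with ⟨h1, h2⟩ | ⟨h1, h2⟩
    · exact Or.inl ⟨h1.symm, h2.symm⟩
    · exact Or.inr ⟨h1.symm, h2.symm⟩⟩
  loopless := ⟨by
    intro u h
    rcases h with ⟨_, h2⟩ | ⟨_, h2⟩
    · rcases h2 with h2 | h2 <;> omega
    · exact h2 rfl⟩

section General

variable {V : Type*} (G : SimpleGraph V)

/-- The edges traversed by the path `p` in one of the steps `p s → p (s + 1)` with `s < t`. -/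
def visitedEdges (p : ℕ → V) (t : ℕ) : Set (Sym2 V) :=
  {e | ∃ s < t, e = s(p s, p (s + 1))}

/-- The neighbours of `p t` whose edge to `p t` is not yet visited at time `t`. -/
def freshNeighbors (p : ℕ → V) (t : ℕ) : Set V :=
  {y | G.Adj (p t) y ∧ s(p t, y) ∉ visitedEdges p t}

open Classical in
/-- The vertices the greedy walk chooses from at time `t`, uniformly: those across an unvisited
edge if there is one, all neighbours otherwise. -/
noncomputable def choices (p : ℕ → V) (t : ℕ) : Set V :=
  if (freshNeighbors G p t).Nonempty then freshNeighbors G p t else {y | G.Adj (p t) y}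

open Classical in
/-- The probability that the greedy walk with history `p 0, …, p t` moves to `y` next. -/
noncomputable def stepProb (p : ℕ → V) (t : ℕ) (y : V) : ℝ≥0∞ :=
  if y ∈ choices G p t then ((choices G p t).ncard : ℝ≥0∞)⁻¹ else 0

/-- `X` is a greedy random walk on `G` started at `v₀`, under the measure `μ`. -/
structure IsGreedyWalk (v₀ : V) {Ω : Type*} [MeasurableSpace Ω] (μ : Measure Ω)
    (X : ℕ → Ω → V) : Prop where
  measurable : ∀ t v, MeasurableSet {ω | X t ω = v}
  start : ∀ᵐ ω ∂μ, X 0 ω = v₀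
  step : ∀ (t : ℕ) (p : ℕ → V) (y : V),
    μ {ω | (∀ k ≤ t, X k ω = p k) ∧ X (t + 1) ω = y} =
      μ {ω | ∀ k ≤ t, X k ω = p k} * stepProb G p t y

variable {G} {v₀ : V} {Ω : Type*} [MeasurableSpace Ω] {μ : Measure Ω} {X : ℕ → Ω → V}

/-- cylinder event -/
def cyl (X : ℕ → Ω → V) (p : ℕ → V) (t : ℕ) : Set Ω := {ω | ∀ k ≤ t, X k ω = p k}

/-- legal histories up to time `t` -/
def Legal (G : SimpleGraph V) (v₀ : V) (p : ℕ → V) (t : ℕ) : Prop :=
  p 0 = v₀ ∧ ∀ k < t, p (k + 1) ∈ choices G p k

lemma cyl_succ (p : ℕ → V) (t : ℕ) :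
    cyl X p (t + 1) = {ω | (∀ k ≤ t, X k ω = p k) ∧ X (t + 1) ω = p (t + 1)} := by
  ext ω
  simp only [cyl, Set.mem_ofPred_eq]
  constructor
  · intro h
    exact ⟨fun k hk => h k (by omega), h (t + 1) le_rfl⟩
  · rintro ⟨h1, h2⟩ k hk
    rcases Nat.lt_or_ge k (t + 1) with h | h
    · exact h1 k (by omega)
    · have : k = t + 1 := by omega
      subst this
      exact h2

lemma measurableSet_cyl (hX : IsGreedyWalk G v₀ μ X) (p : ℕ → V) (t : ℕ) :
    MeasurableSet (cyl X p t) := by
  have : cyl X p t = ⋂ k ∈ Set.Iic t, {ω | X k ω = p k} := by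
    ext ω; simp [cyl]
  rw [this]
  exact MeasurableSet.biInter (Set.to_countable _) (fun k _ => hX.measurable k _)

lemma visitedEdges_congr {p q : ℕ → V} {t : ℕ} (h : ∀ k ≤ t, p k = q k) :
    visitedEdges p t = visitedEdges q t := by
  ext e
  simp only [visitedEdges, Set.mem_ofPred_eq]
  constructor
  · rintro ⟨s, hs, rfl⟩
    exact ⟨s, hs, by rw [h s (by omega), h (s + 1) (by omega)]⟩
  · rintro ⟨s, hs, rfl⟩
    exact ⟨s, hs, by rw [h s (by omega), h (s + 1) (by omega)]⟩

lemma freshNeighbors_congr {p q : ℕ → V} {t : ℕ} (h : ∀ k ≤ t, p k = q k) :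
    freshNeighbors G p t = freshNeighbors G q t := by
  simp only [freshNeighbors, visitedEdges_congr h, h t le_rfl]

lemma choices_congr {p q : ℕ → V} {t : ℕ} (h : ∀ k ≤ t, p k = q k) :
    choices G p t = choices G q t := by
  unfold choices
  rw [freshNeighbors_congr h, h t le_rfl]

lemma Legal.congr {p q : ℕ → V} {t : ℕ} (h : ∀ k ≤ t, p k = q k) (hp : Legal G v₀ p t) :
    Legal G v₀ q t := by
  refine ⟨by rw [← h 0 (by omega)]; exact hp.1, fun k hk => ?_⟩
  rw [← h (k + 1) (by omega), ← choices_congr (fun j hj => h j (by omega))]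
  exact hp.2 k hk

lemma Legal.mono {p : ℕ → V} {t t' : ℕ} (h : t' ≤ t) (hp : Legal G v₀ p t) :
    Legal G v₀ p t' := ⟨hp.1, fun k hk => hp.2 k (by omega)⟩

lemma legal_of_cyl_ne_zero (hX : IsGreedyWalk G v₀ μ X) (p : ℕ → V) (t : ℕ)
    (h : μ (cyl X p t) ≠ 0) : Legal G v₀ p t := by
  induction t with
  | zero =>
    refine ⟨?_, fun k hk => by omega⟩
    by_contra hne
    apply h
    refine measure_mono_null ?_ hX.start
    intro ω hω
    simp only [cyl, Set.mem_ofPred_eq] at hω
    simp only [Set.mem_compl_iff, Set.mem_ofPred_eq]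
    rw [hω 0 le_rfl]
    exact hne
  | succ t ih =>
    rw [cyl_succ, hX.step] at h
    have h1 : μ (cyl X p t) ≠ 0 := left_ne_zero_of_mul h
    have h2 : stepProb G p t (p (t + 1)) ≠ 0 := right_ne_zero_of_mul h
    have hl := ih h1
    refine ⟨hl.1, fun k hk => ?_⟩
    rcases Nat.lt_or_ge k t with hkt | hkt
    · exact hl.2 k hkt
    · have : k = t := by omega
      subst this
      by_contra hne
      apply h2
      simp [stepProb, hne]

lemma choices_subset (p : ℕ → V) (t : ℕ) : choices G p t ⊆ {y | G.Adj (p t) y} := by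
  unfold choices
  split_ifs with h
  · intro y hy
    exact hy.1
  · exact le_rfl

/-- Maximal inequality for functions of the history that are superharmonic. -/
lemma maximal [Countable V] [IsProbabilityMeasure μ] (hX : IsGreedyWalk G v₀ μ X)
    (hfin : ∀ v, {y | G.Adj v y}.Finite)
    (F : (ℕ → V) → ℕ → ℝ) (hF0 : ∀ p t, 0 ≤ F p t)
    (hFdep : ∀ p q t, (∀ k ≤ t, p k = q k) → F p t = F q t) (s : ℕ)
    (hsup : ∀ p t, s ≤ t → Legal G v₀ p t →
      ∑ y ∈ ((hfin (p t)).subset (choices_subset p t)).toFinset,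
        F (Function.update p (t + 1) y) (t + 1) ≤ ((choices G p t).ncard : ℝ) * F p t)
    {a : ℝ} (ha : 0 < a) (N : ℕ) : ∀ (n : ℕ) (p : ℕ → V), s ≤ n →
      a * μ.real (cyl X p n ∩ {ω | ∃ t, n ≤ t ∧ t ≤ n + N ∧ a ≤ F (fun k => X k ω) t}) ≤
        μ.real (cyl X p n) * F p n := by
  induction N with
  | zero =>
    intro n p hn
    by_cases haF : a ≤ F p n
    · calc a * μ.real (cyl X p n ∩ {ω | ∃ t, n ≤ t ∧ t ≤ n + 0 ∧ a ≤ F (fun k => X k ω) t})
          ≤ a * μ.real (cyl X p n) := by
            apply mul_le_mul_of_nonneg_left _ ha.le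
            exact measureReal_mono Set.inter_subset_left
        _ ≤ F p n * μ.real (cyl X p n) := mul_le_mul_of_nonneg_right haF measureReal_nonneg
        _ = _ := mul_comm _ _
    · have : cyl X p n ∩ {ω | ∃ t, n ≤ t ∧ t ≤ n + 0 ∧ a ≤ F (fun k => X k ω) t} = ∅ := by
        ext ω
        simp only [Set.mem_inter_iff, Set.mem_ofPred_eq, Set.mem_empty_iff_false, iff_false,
          not_and, not_exists]
        intro hω t ht1 ht2
        have : t = n := by omega
        subst this
        rw [hFdep (fun k => X k ω) p t (fun k hk => hω k hk)]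
        exact haF
      rw [this]
      simp only [measureReal_empty, mul_zero]
      exact mul_nonneg measureReal_nonneg (hF0 _ _)
  | succ N ih =>
    intro n p hn
    by_cases haF : a ≤ F p n
    · calc a * μ.real (cyl X p n ∩ {ω | ∃ t, n ≤ t ∧ t ≤ n + (N + 1) ∧
              a ≤ F (fun k => X k ω) t})
          ≤ a * μ.real (cyl X p n) := by
            apply mul_le_mul_of_nonneg_left _ ha.le
            exact measureReal_mono Set.inter_subset_left
        _ ≤ F p n * μ.real (cyl X p n) := mul_le_mul_of_nonneg_right haF measureReal_nonneg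
        _ = _ := mul_comm _ _
    · by_cases h0 : μ (cyl X p n) = 0
      · have : μ.real (cyl X p n ∩ {ω | ∃ t, n ≤ t ∧ t ≤ n + (N + 1) ∧
              a ≤ F (fun k => X k ω) t}) = 0 := by
          rw [measureReal_eq_zero_iff]
          exact measure_mono_null Set.inter_subset_left h0
        rw [this, mul_zero]
        exact mul_nonneg measureReal_nonneg (hF0 _ _)
      have hlegal := legal_of_cyl_ne_zero hX p n h0
      set S : Finset V := ((hfin (p n)).subset (choices_subset p n)).toFinset with hS
      have hSmem : ∀ y, y ∈ S ↔ y ∈ choices G p n := by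
        intro y; rw [hS]; simp
      have hcard : (choices G p n).ncard = S.card := by
        rw [hS, Set.ncard_eq_toFinset_card _ ((hfin (p n)).subset (choices_subset p n))]
      -- cylinders of updates
      have hcyl : ∀ y, cyl X (Function.update p (n + 1) y) (n + 1) =
          {ω | (∀ k ≤ n, X k ω = p k) ∧ X (n + 1) ω = y} := by
        intro y
        rw [cyl_succ]
        ext ω
        simp only [Set.mem_ofPred_eq, Function.update_self]
        constructor
        · rintro ⟨h1, h2⟩
          refine ⟨fun k hk => ?_, h2⟩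
          rw [h1 k hk, Function.update_of_ne (by omega)]
        · rintro ⟨h1, h2⟩
          refine ⟨fun k hk => ?_, h2⟩
          rw [h1 k hk, Function.update_of_ne (by omega)]
      have hnull : μ (⋃ y ∈ {y | y ∉ choices G p n},
          {ω | (∀ k ≤ n, X k ω = p k) ∧ X (n + 1) ω = y}) = 0 := by
        rw [measure_biUnion_null_iff (Set.to_countable _)]
        intro y hy
        rw [hX.step]
        simp only [Set.mem_ofPred_eq] at hy
        simp [stepProb, hy]
      have hsub : cyl X p n ∩ {ω | ∃ t, n ≤ t ∧ t ≤ n + (N + 1) ∧ a ≤ F (fun k => X k ω) t} ⊆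
          (⋃ y ∈ S, (cyl X (Function.update p (n + 1) y) (n + 1) ∩
            {ω | ∃ t, n + 1 ≤ t ∧ t ≤ (n + 1) + N ∧ a ≤ F (fun k => X k ω) t})) ∪
          (⋃ y ∈ {y | y ∉ choices G p n},
          {ω | (∀ k ≤ n, X k ω = p k) ∧ X (n + 1) ω = y}) := by
        rintro ω ⟨hω, t, ht1, ht2, ht3⟩
        have htn : t ≠ n := by
          rintro rfl
          rw [hFdep (fun k => X k ω) p t (fun k hk => hω k hk)] at ht3
          exact haF ht3
        by_cases hy : X (n + 1) ω ∈ choices G p n
        · left
          simp only [Set.mem_iUnion]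
          refine ⟨X (n + 1) ω, (hSmem _).2 hy, ?_, t, by omega, by omega, ht3⟩
          rw [hcyl]
          exact ⟨hω, rfl⟩
        · right
          simp only [Set.mem_iUnion]
          exact ⟨X (n + 1) ω, hy, hω, rfl⟩
      have hmeas : μ.real (cyl X p n ∩ {ω | ∃ t, n ≤ t ∧ t ≤ n + (N + 1) ∧
          a ≤ F (fun k => X k ω) t}) ≤
          ∑ y ∈ S, μ.real (cyl X (Function.update p (n + 1) y) (n + 1) ∩
            {ω | ∃ t, n + 1 ≤ t ∧ t ≤ (n + 1) + N ∧ a ≤ F (fun k => X k ω) t}) := by
        refine (measureReal_mono hsub).trans ?_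
        refine (measureReal_union_le _ _).trans ?_
        have : μ.real (⋃ y ∈ {y | y ∉ choices G p n},
          {ω | (∀ k ≤ n, X k ω = p k) ∧ X (n + 1) ω = y}) = 0 := by
          rw [measureReal_def, hnull, ENNReal.toReal_zero]
        rw [this, add_zero]
        exact measureReal_biUnion_finset_le _ _
      have hreal : ∀ y ∈ S, μ.real (cyl X (Function.update p (n + 1) y) (n + 1)) =
          μ.real (cyl X p n) * ((S.card : ℝ))⁻¹ := by
        intro y hy
        rw [hcyl, measureReal_def, hX.step, ENNReal.toReal_mul]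
        congr 1
        have : y ∈ choices G p n := (hSmem y).1 hy
        simp [stepProb, this, hcard]
      calc a * μ.real (cyl X p n ∩ {ω | ∃ t, n ≤ t ∧ t ≤ n + (N + 1) ∧
              a ≤ F (fun k => X k ω) t})
          ≤ a * ∑ y ∈ S, μ.real (cyl X (Function.update p (n + 1) y) (n + 1) ∩
            {ω | ∃ t, n + 1 ≤ t ∧ t ≤ (n + 1) + N ∧ a ≤ F (fun k => X k ω) t}) :=
            mul_le_mul_of_nonneg_left hmeas ha.le
        _ = ∑ y ∈ S, a * μ.real (cyl X (Function.update p (n + 1) y) (n + 1) ∩
            {ω | ∃ t, n + 1 ≤ t ∧ t ≤ (n + 1) + N ∧ a ≤ F (fun k => X k ω) t}) := by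
            rw [Finset.mul_sum]
        _ ≤ ∑ y ∈ S, μ.real (cyl X (Function.update p (n + 1) y) (n + 1)) *
              F (Function.update p (n + 1) y) (n + 1) :=
            Finset.sum_le_sum (fun y _ => ih (n + 1) _ (by omega))
        _ = ∑ y ∈ S, (μ.real (cyl X p n) * ((S.card : ℝ))⁻¹) *
              F (Function.update p (n + 1) y) (n + 1) :=
            Finset.sum_congr rfl (fun y hy => by rw [hreal y hy])
        _ = (μ.real (cyl X p n) * ((S.card : ℝ))⁻¹) *
              ∑ y ∈ S, F (Function.update p (n + 1) y) (n + 1) := by rw [Finset.mul_sum]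
        _ ≤ (μ.real (cyl X p n) * ((S.card : ℝ))⁻¹) * ((S.card : ℝ) * F p n) := by
            apply mul_le_mul_of_nonneg_left
            · have := hsup p n hn hlegal
              rw [hcard] at this
              exact this
            · positivity
        _ ≤ μ.real (cyl X p n) * F p n := by
            rw [mul_assoc, ← mul_assoc ((S.card : ℝ))⁻¹]
            apply mul_le_mul_of_nonneg_left _ measureReal_nonneg
            by_cases hc : (S.card : ℝ) = 0
            · rw [hc]; simp only [mul_zero, zero_mul]; exact hF0 _ _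
            · rw [inv_mul_cancel₀ hc, one_mul]

lemma null_of_cyl_null [Countable V] (n : ℕ) (E : Set Ω)
    (h : ∀ p : ℕ → V, μ (cyl X p n ∩ E) = 0) : μ E = 0 := by
  have hsub : E ⊆ ⋃ c : Fin (n + 1) → V,
      (cyl X (fun k => c ⟨min k n, by omega⟩) n ∩ E) := by
    intro ω hω
    simp only [Set.mem_iUnion]
    refine ⟨fun k => X k ω, ?_, hω⟩
    intro k hk
    have : min k n = k := min_eq_left hk
    simp [this]
  refine measure_mono_null hsub ?_
  rw [measure_iUnion_null_iff]
  intro c
  exact h _

lemma ae_legal [Countable V] (hX : IsGreedyWalk G v₀ μ X) :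
    ∀ᵐ ω ∂μ, ∀ t, Legal G v₀ (fun k => X k ω) t := by
  rw [ae_all_iff]
  intro t
  rw [ae_iff]
  apply null_of_cyl_null (X := X) t
  intro p
  by_cases h : μ (cyl X p t) = 0
  · exact measure_mono_null Set.inter_subset_left h
  · have hl := legal_of_cyl_ne_zero hX p t h
    have : cyl X p t ∩ {a | ¬Legal G v₀ (fun k => X k a) t} = ∅ := by
      ext ω
      simp only [Set.mem_inter_iff, Set.mem_ofPred_eq, Set.mem_empty_iff_false, iff_false,
        not_and, not_not]
      intro hω
      exact hl.congr (fun k hk => (hω k hk).symm)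
    rw [this]
    exact measure_empty

/-- A superharmonic function of the history is almost surely bounded along the path. -/
lemma null_unbounded [Countable V] [IsProbabilityMeasure μ] (hX : IsGreedyWalk G v₀ μ X)
    (hfin : ∀ v, {y | G.Adj v y}.Finite)
    (F : (ℕ → V) → ℕ → ℝ) (hF0 : ∀ p t, 0 ≤ F p t)
    (hFdep : ∀ p q t, (∀ k ≤ t, p k = q k) → F p t = F q t) (n : ℕ)
    (hsup : ∀ p t, n ≤ t → Legal G v₀ p t →
      ∑ y ∈ ((hfin (p t)).subset (choices_subset p t)).toFinset,
        F (Function.update p (t + 1) y) (t + 1) ≤ ((choices G p t).ncard : ℝ) * F p t) :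
    μ {ω | ∀ a : ℕ, ∃ t, n ≤ t ∧ (a : ℝ) ≤ F (fun k => X k ω) t} = 0 := by
  apply null_of_cyl_null (X := X) n
  intro p
  set E : Set Ω := {ω | ∀ a : ℕ, ∃ t, n ≤ t ∧ (a : ℝ) ≤ F (fun k => X k ω) t} with hE
  -- for each `a`
  have key : ∀ a : ℕ, 0 < a → μ (cyl X p n ∩ E) ≤ ENNReal.ofReal (F p n / a) := by
    intro a ha
    have ha' : (0 : ℝ) < a := by exact_mod_cast ha
    have hsub : cyl X p n ∩ E ⊆ ⋃ N : ℕ, (cyl X p n ∩
        {ω | ∃ t, n ≤ t ∧ t ≤ n + N ∧ (a : ℝ) ≤ F (fun k => X k ω) t}) := by
      rintro ω ⟨h1, h2⟩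
      obtain ⟨t, ht1, ht2⟩ := h2 a
      simp only [Set.mem_iUnion]
      exact ⟨t - n, h1, t, ht1, by omega, ht2⟩
    refine (measure_mono hsub).trans ?_
    have hmono : Monotone (fun N : ℕ => (cyl X p n ∩
        {ω | ∃ t, n ≤ t ∧ t ≤ n + N ∧ (a : ℝ) ≤ F (fun k => X k ω) t})) := by
      intro N M hNM ω hω
      obtain ⟨h1, t, ht1, ht2, ht3⟩ := hω
      exact ⟨h1, t, ht1, by omega, ht3⟩
    rw [hmono.measure_iUnion]
    apply iSup_le
    intro N
    have hmax := maximal hX hfin F hF0 hFdep n hsup ha' N n p le_rfl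
    rw [← ENNReal.ofReal_toReal (measure_ne_top μ _)]
    apply ENNReal.ofReal_le_ofReal
    rw [le_div_iff₀ ha', mul_comm]
    refine hmax.trans ?_
    have : μ.real (cyl X p n) ≤ 1 := measureReal_le_one
    calc μ.real (cyl X p n) * F p n ≤ 1 * F p n := mul_le_mul_of_nonneg_right this (hF0 _ _)
      _ = F p n := one_mul _
  have hlim : Tendsto (fun a : ℕ => ENNReal.ofReal (F p n / a)) atTop (nhds 0) := by
    rw [← ENNReal.ofReal_zero]
    apply ENNReal.tendsto_ofReal
    exact tendsto_const_div_atTop_nhds_zero_nat (F p n)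
  have hle : μ (cyl X p n ∩ E) ≤ 0 := by
    apply ge_of_tendsto hlim
    filter_upwards [eventually_gt_atTop 0] with a ha
    exact key a ha
  exact le_antisymm hle zero_le

open Classical in
/-- number of visits of `q` to `v` in the time interval `[n, t)` at which there was no unvisited
edge at `v` -/
noncomputable def satVisits (G : SimpleGraph V) (v : V) (n : ℕ) (q : ℕ → V) (t : ℕ) : ℕ :=
  ((Finset.Ico n t).filter (fun k => q k = v ∧ ¬ (freshNeighbors G q k).Nonempty)).card

lemma satVisits_congr (v : V) (n : ℕ) {p q : ℕ → V} {t : ℕ} (h : ∀ k ≤ t, p k = q k) :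
    satVisits G v n p t = satVisits G v n q t := by
  unfold satVisits
  congr 1
  ext k
  simp only [Finset.mem_filter, Finset.mem_Ico]
  constructor
  · rintro ⟨hk, h1, h2⟩
    refine ⟨hk, by rw [← h k (by omega)]; exact h1, ?_⟩
    rw [← freshNeighbors_congr (fun j hj => h j (by omega))]
    exact h2
  · rintro ⟨hk, h1, h2⟩
    refine ⟨hk, by rw [h k (by omega)]; exact h1, ?_⟩
    rw [freshNeighbors_congr (fun j hj => h j (by omega))]
    exact h2

lemma satVisits_succ (v : V) (n : ℕ) (q : ℕ → V) (t : ℕ) (hn : n ≤ t)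
    (h : q t = v ∧ ¬ (freshNeighbors G q t).Nonempty) :
    satVisits G v n q (t + 1) = satVisits G v n q t + 1 := by
  unfold satVisits
  rw [← Finset.insert_Ico_right_eq_Ico_add_one hn, Finset.filter_insert, if_pos h,
    Finset.card_insert_of_notMem]
  simp

lemma satVisits_succ' (v : V) (n : ℕ) (q : ℕ → V) (t : ℕ) (hn : n ≤ t)
    (h : ¬ (q t = v ∧ ¬ (freshNeighbors G q t).Nonempty)) :
    satVisits G v n q (t + 1) = satVisits G v n q t := by
  unfold satVisits
  rw [← Finset.insert_Ico_right_eq_Ico_add_one hn, Finset.filter_insert, if_neg h]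

open Classical in
/-- the superharmonic function used for the propagation of recurrence to neighbours -/
noncomputable def Fnb (G : SimpleGraph V) (v u : V) (n : ℕ) (q : ℕ → V) (t : ℕ) : ℝ :=
  if ∃ k, n < k ∧ k ≤ t ∧ q k = u then 0 else (3 / 2 : ℝ) ^ satVisits G v n q t

lemma Fnb_nonneg (v u : V) (n : ℕ) (q : ℕ → V) (t : ℕ) : 0 ≤ Fnb G v u n q t := by
  unfold Fnb
  split_ifs
  · exact le_rfl
  · positivity

lemma Fnb_congr (v u : V) (n : ℕ) (p q : ℕ → V) (t : ℕ) (h : ∀ k ≤ t, p k = q k) :
    Fnb G v u n p t = Fnb G v u n q t := by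
  unfold Fnb
  rw [satVisits_congr v n h]
  have : (∃ k, n < k ∧ k ≤ t ∧ p k = u) ↔ (∃ k, n < k ∧ k ≤ t ∧ q k = u) := by
    constructor
    · rintro ⟨k, h1, h2, h3⟩
      exact ⟨k, h1, h2, by rw [← h k h2]; exact h3⟩
    · rintro ⟨k, h1, h2, h3⟩
      exact ⟨k, h1, h2, by rw [h k h2]; exact h3⟩
  by_cases hc : ∃ k, n < k ∧ k ≤ t ∧ p k = u
  · rw [if_pos hc, if_pos (this.1 hc)]
  · rw [if_neg hc, if_neg (fun h' => hc (this.2 h'))]

lemma Fnb_super (hfin : ∀ v, {y | G.Adj v y}.Finite)
    (hreg : ∀ v, {y | G.Adj v y}.ncard = 3) {v u : V} (huv : G.Adj v u) (n : ℕ)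
    (p : ℕ → V) (t : ℕ) (hn : n ≤ t) :
    ∑ y ∈ ((hfin (p t)).subset (choices_subset p t)).toFinset,
        Fnb G v u n (Function.update p (t + 1) y) (t + 1) ≤
      ((choices G p t).ncard : ℝ) * Fnb G v u n p t := by
  classical
  set S : Finset V := ((hfin (p t)).subset (choices_subset p t)).toFinset with hS
  have hcard : (choices G p t).ncard = S.card := by
    rw [hS, Set.ncard_eq_toFinset_card _ ((hfin (p t)).subset (choices_subset p t))]
  have hupd : ∀ y, ∀ k ≤ t, Function.update p (t + 1) y k = p k := by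
    intro y k hk
    exact Function.update_of_ne (by omega) _ _
  by_cases hA : ∃ k, n < k ∧ k ≤ t ∧ p k = u
  · obtain ⟨k, h1, h2, h3⟩ := hA
    have hz : ∀ y ∈ S, Fnb G v u n (Function.update p (t + 1) y) (t + 1) = 0 := by
      intro y _
      unfold Fnb
      rw [if_pos]
      exact ⟨k, h1, by omega, by rw [hupd y k h2]; exact h3⟩
    rw [Finset.sum_eq_zero hz]
    exact mul_nonneg (Nat.cast_nonneg _) (Fnb_nonneg _ _ _ _ _)
  · have hF : Fnb G v u n p t = (3 / 2 : ℝ) ^ satVisits G v n p t := by
      unfold Fnb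
      rw [if_neg hA]
    by_cases hB : p t = v ∧ ¬ (freshNeighbors G p t).Nonempty
    · have hch : choices G p t = {y | G.Adj (p t) y} := by
        unfold choices
        rw [if_neg hB.2]
      have hc3 : S.card = 3 := by
        rw [← hcard, hch, hreg]
      have huS : u ∈ S := by
        rw [hS]
        simp only [Set.Finite.mem_toFinset]
        rw [hch, hB.1]
        exact huv
      have hle : ∀ y ∈ S, Fnb G v u n (Function.update p (t + 1) y) (t + 1) ≤
          if y = u then 0 else (3 / 2 : ℝ) ^ (satVisits G v n p t + 1) := by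
        intro y _
        have hsat : satVisits G v n (Function.update p (t + 1) y) (t + 1) =
            satVisits G v n p t + 1 := by
          rw [satVisits_succ v n _ t hn, satVisits_congr v n (hupd y)]
          rw [hupd y t le_rfl, freshNeighbors_congr (hupd y)]
          exact hB
        unfold Fnb
        rw [hsat]
        split_ifs with h1 h2 h2
        · exact le_rfl
        · positivity
        · exfalso
          apply h1
          exact ⟨t + 1, by omega, le_rfl, by rw [Function.update_self]; exact h2⟩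
        · exact le_rfl
      refine (Finset.sum_le_sum hle).trans ?_
      rw [Finset.sum_ite, Finset.sum_const_zero, zero_add, Finset.sum_const]
      have hc2 : (S.filter (fun y => ¬ y = u)).card = 2 := by
        have : S.filter (fun y => ¬ y = u) = S.erase u := by
          ext y
          simp only [Finset.mem_filter, Finset.mem_erase]
          tauto
        rw [this, Finset.card_erase_of_mem huS, hc3]
      rw [hc2, hcard, hc3, hF, pow_succ]
      apply le_of_eq
      simp only [nsmul_eq_mul]
      push_cast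
      ring
    · have hle : ∀ y ∈ S, Fnb G v u n (Function.update p (t + 1) y) (t + 1) ≤
          (3 / 2 : ℝ) ^ (satVisits G v n p t) := by
        intro y _
        have hsat : satVisits G v n (Function.update p (t + 1) y) (t + 1) =
            satVisits G v n p t := by
          rw [satVisits_succ' v n _ t hn, satVisits_congr v n (hupd y)]
          rw [hupd y t le_rfl, freshNeighbors_congr (hupd y)]
          exact hB
        unfold Fnb
        rw [hsat]
        split_ifs with h1
        · positivity
        · exact le_rfl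
      refine (Finset.sum_le_sum hle).trans ?_
      rw [Finset.sum_const, hcard, hF, nsmul_eq_mul]

/-- Along a legal path only finitely many visits to a vertex use an unvisited edge. -/
lemma finite_fresh_visits (hfin : ∀ v, {y | G.Adj v y}.Finite) {q : ℕ → V}
    (hq : ∀ t, Legal G v₀ q t) (v : V) :
    {k | q k = v ∧ (freshNeighbors G q k).Nonempty}.Finite := by
  have himg : ((fun k => s(q k, q (k + 1))) ''
      {k | q k = v ∧ (freshNeighbors G q k).Nonempty}).Finite := by
    refine ((hfin v).image (fun y => s(v, y))).subset ?_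
    rintro _ ⟨k, ⟨hk1, hk2⟩, rfl⟩
    refine ⟨q (k + 1), ?_, by simp [hk1]⟩
    have := choices_subset q k ((hq (k + 1)).2 k (by omega))
    simpa [hk1] using this
  refine himg.of_finite_image ?_
  intro k hk l hl hkl
  simp only at hkl
  by_contra hne
  rcases Nat.lt_or_ge k l with hlt | hge
  · have hc := (hq (l + 1)).2 l (by omega)
    unfold choices at hc
    rw [if_pos hl.2] at hc
    exact hc.2 ⟨k, hlt, hkl.symm⟩
  · have hlt : l < k := lt_of_le_of_ne hge (fun h => hne h.symm)
    have hc := (hq (k + 1)).2 k (by omega)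
    unfold choices at hc
    rw [if_pos hk.2] at hc
    exact hc.2 ⟨l, hlt, hkl⟩

/-- If `v` is visited infinitely often then so is each neighbour, almost surely. -/
lemma ae_neighbour [Countable V] [IsProbabilityMeasure μ] (hX : IsGreedyWalk G v₀ μ X)
    (hfin : ∀ v, {y | G.Adj v y}.Finite)
    (hreg : ∀ v, {y | G.Adj v y}.ncard = 3) {v u : V} (huv : G.Adj v u) :
    ∀ᵐ ω ∂μ, (∃ᶠ k in atTop, X k ω = v) → (∃ᶠ k in atTop, X k ω = u) := by
  classical
  have hnull : ∀ n : ℕ, ∀ᵐ ω ∂μ,
      ¬ (∀ a : ℕ, ∃ t, n ≤ t ∧ (a : ℝ) ≤ Fnb G v u n (fun k => X k ω) t) := by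
    intro n
    rw [ae_iff]
    simp only [not_not]
    exact null_unbounded hX hfin (Fnb G v u n) (Fnb_nonneg v u n) (Fnb_congr v u n) n
      (fun p t hn _ => Fnb_super hfin hreg huv n p t hn)
  filter_upwards [ae_legal hX, ae_all_iff.2 hnull] with ω hleg hω hv
  by_contra hu
  rw [not_frequently, eventually_atTop] at hu
  obtain ⟨n, hn⟩ := hu
  apply hω n
  intro a
  -- infinitely many saturated visits after time n
  have hinf : {k | n ≤ k ∧ X k ω = v ∧
      ¬ (freshNeighbors G (fun k => X k ω) k).Nonempty}.Infinite := by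
    have h1 : {k | X k ω = v}.Infinite := Nat.frequently_atTop_iff_infinite.1 hv
    have h2 := finite_fresh_visits hfin hleg v
    have h3 : {k : ℕ | k < n}.Finite := Set.finite_lt_nat n
    have h4 := (h1.sdiff h2).sdiff h3
    refine h4.mono ?_
    rintro k ⟨⟨hk1, hk2⟩, hk3⟩
    simp only [Set.mem_ofPred_eq, not_lt] at hk1 hk2 hk3 ⊢
    exact ⟨hk3, hk1, fun h => hk2 ⟨hk1, h⟩⟩
  obtain ⟨a', ha'⟩ : ∃ a' : ℕ, (a : ℝ) ≤ (3 / 2 : ℝ) ^ a' := by
    obtain ⟨a', ha'⟩ := pow_unbounded_of_one_lt (a : ℝ) (by norm_num : (1 : ℝ) < 3 / 2)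
    exact ⟨a', ha'.le⟩
  obtain ⟨T, hT1, hT2⟩ := hinf.exists_subset_card_eq a'
  refine ⟨max n (T.sup id + 1), le_max_left _ _, ?_⟩
  unfold Fnb
  rw [if_neg]
  · refine ha'.trans ?_
    apply pow_le_pow_right₀ (by norm_num)
    rw [← hT2]
    unfold satVisits
    apply Finset.card_le_card
    intro k hk
    have hk' := hT1 (Finset.mem_coe.2 hk)
    have hks : k ≤ T.sup id := Finset.le_sup (f := id) hk
    simp only [Set.mem_ofPred_eq] at hk'
    rw [Finset.mem_filter, Finset.mem_Ico]
    exact ⟨⟨hk'.1, lt_of_lt_of_le (Nat.lt_succ_of_le hks) (le_max_right _ _)⟩, hk'.2⟩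
  · rintro ⟨k, hk1, _, hk3⟩
    exact hn k hk1.le hk3

end General

/-! ### The finite check -/

def tabR : ℕ := 49806175230220329845478136965933587245910340974464204800

def tabP : ℕ := 0x6135c0600000140180000000656000000580000000000000617500600000500480011000000000000000000000000000baeb80b80000980980024000b6d000000b40000000000000b6dac0b40000000000000000000000000000000000000000ae6ac0ac000084088001f0000000000000000000000000000000000000000000000000009e800000094000000000000000000000000000000000000000000000000000000000000000000000000000000000000000000000000000000000000081978080000044048000c00081d0000007400000000000008a06c088000074070001a00000000000000000000000000000000000000000000000000000000000000000000000000000000000000000000000000000000000000000000000000000000000000000000000000000000000000000000000000000000000000000000000000000000000000000000000000000000000000000000000000000000000000000000000000000000000000000000000000000000000000000000000000058f5005800001801c00020005d40000005000000000000005943c05800004c0440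01000000000000000000000000000000000000000000000000000000000000000000000000000000000000000000000000000000000000000000000000000079a7c07c000054058001300000000000000000000000000000000000000000000000000069b00000064000000000000000000000000000000000000000000000000000000000000000000000000000000000000000000000000000000000000000000000000000000000000000000000000000000000000000000000000000000000000000000000000000000000000092490090000074078001c0008610000008400000000000008a280088000000000000000000000000000000000000000000000000000000000000000000000000000000000000000000000000000000000000000000000000000000000000000000000000000000000000000000000000000000000000000000000000000000000000000000000000000000000000000054e4c05400001801c00020005930000004c00000000000005d54005c00004c04800100000000000000000000000000008618408400006406800180008a20000008800000000000008617808400000000000000000000000000000000000000000000000000000000000000000000000000000000000000000000000000000000000000000000000000000000000000000000000000000000000000000000000000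0000000000000000000000000000000000000000000000000000000000000000000000000000000000000000000000000000000000000000000000000000000000000000000000000000000000000000000000000000000000000000000000000000000000000000000000000000000000000000000000000000000000000079a7c07c00005806000150000000000000000000000000000000000000000000000000007e00000007400000000000000000000000000000000000000000000000000000000000000000000000000000000000000000000000000000000000005915406000001801c00020006150000005400000000000005d64806400005004400110000000000000000000000000000000000000000000000000000000000000000000000000000000000000000000000000000000000000000000000000000000000000000000000000000000000000000000000000000000000000000000000000000000000000000000000000000000000000000000000000000000000000000000000000000000000000000000000000000000000000000000000000000000000000000000000000000000000000000000000000000000000000000000000000000000000000000000000000000000000000000000000000000000000000000000000000000000000000000000000000000000000000000000000000000000000000000000000000000000000000000000000000000000000000000000000000000000000000000000000000004924804800002c028000900000000000000000000000000000000000000000000000000038d000000300000000000000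

def phiR (a b v c d : Bool) : ℤ :=
  (((tabR >>> (6 * (a.toNat + 2 * b.toNat + 4 * v.toNat + 8 * c.toNat + 16 * d.toNat))) % 64 : ℕ) : ℤ)

def psi (b0 b1 b2 b3 b4 b5 b6 b7 b8 b9 b10 : Bool) : ℤ :=
  (((tabP >>> (6 * (b0.toNat + 2 * b1.toNat + 4 * b2.toNat + 8 * b3.toNat + 16 * b4.toNat +
    32 * b5.toNat + 64 * b6.toNat + 128 * b7.toNat + 256 * b8.toNat + 512 * b9.toNat +
    1024 * b10.toNat))) % 64 : ℕ) : ℤ)

def okDeg (a b c : Bool) : Bool := !((a && !b && !c) || (!a && b && !c) || (!a && !b && c))

/-- total drift times the number of choices -/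
def drift (h3 g3 v2 h2 g2 v1 h1 g1 v0 h0 g0 w1 k1 l1 w2 k2 l2 : Bool) : ℤ :=
  (if !h0 || (h0 && h1 && v0) then
    21 - phiR k1 l1 w2 k2 l2 + psi h1 g1 v0 true g0 w1 k1 l1 w2 k2 l2
      - psi h2 g2 v1 h1 g1 v0 h0 g0 w1 k1 l1 else 0) +
  (if !h1 || (h0 && h1 && v0) then
    -21 + phiR h0 g0 w1 k1 l1 + psi h3 g3 v2 h2 g2 v1 true g1 v0 h0 g0
      - psi h2 g2 v1 h1 g1 v0 h0 g0 w1 k1 l1 else 0) +
  (if !v0 || (h0 && h1 && v0) then
    psi g2 h2 v1 g1 h1 true g0 h0 w1 l1 k1
      - psi h2 g2 v1 h1 g1 v0 h0 g0 w1 k1 l1 else 0)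

set_option synthInstance.maxSize 5000 in
set_option maxRecDepth 100000 in
theorem window_check : ∀ (h3 g3 : Bool), (h3 || g3) = true →
    ∀ (v2 h2 g2 : Bool), okDeg h3 v2 h2 = true → okDeg g3 v2 g2 = true → (h2 || g2) = true →
    ∀ (v1 h1 g1 : Bool), okDeg h2 v1 h1 = true → okDeg g2 v1 g1 = true → (h1 || g1) = true →
    ∀ (v0 h0 g0 : Bool), (h1 || v0 || h0) = true → okDeg g1 v0 g0 = true →
    ∀ (w1 k1 l1 : Bool), okDeg h0 w1 k1 = true → okDeg g0 w1 l1 = true →
      ((h0 || g0) = true ∨ (w1 = false ∧ k1 = false ∧ l1 = false)) →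
    ∀ (w2 k2 l2 : Bool), okDeg k1 w2 k2 = true → okDeg l1 w2 l2 = true →
      ((k1 || l1) = true ∨ (w2 = false ∧ k2 = false ∧ l2 = false)) →
    drift h3 g3 v2 h2 g2 v1 h1 g1 v0 h0 g0 w1 k1 l1 w2 k2 l2 ≤
      if (h0 || g0) = true then 0 else 18 := by
  decide +kernel

theorem phiR_flip : ∀ a b v c d : Bool, phiR a b v c d = phiR b a v d c := by
  decide +kernel

/-! ### The abstract state and its potential -/

lemma phiR_nonneg (a b v c d : Bool) : 0 ≤ phiR a b v c d := by
  unfold phiR; exact Int.natCast_nonneg _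

lemma psi_nonneg (b0 b1 b2 b3 b4 b5 b6 b7 b8 b9 b10 : Bool) :
    0 ≤ psi b0 b1 b2 b3 b4 b5 b6 b7 b8 b9 b10 := by
  unfold psi; exact Int.natCast_nonneg _

lemma phiR_zero : phiR false false false false false = 0 := by decide +kernel

/-- abstract state of the walk -/
structure St where
  H : ℤ → Bool → Bool
  V : ℤ → Bool
  x : ℤ
  i : Bool
  R : ℤ

namespace St

def colP (s : St) (m : ℤ) : ℤ :=
  phiR (s.H (m - 1) false) (s.H (m - 1) true) (s.V m) (s.H m false) (s.H m true)

def win (s : St) : ℤ :=
  psi (s.H (s.x - 2) s.i) (s.H (s.x - 2) !s.i) (s.V (s.x - 1)) (s.H (s.x - 1) s.i)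
    (s.H (s.x - 1) !s.i) (s.V s.x) (s.H s.x s.i) (s.H s.x !s.i) (s.V (s.x + 1))
    (s.H (s.x + 1) s.i) (s.H (s.x + 1) !s.i)

noncomputable def Y (s : St) : ℤ := 21 * s.x + ∑ m ∈ Finset.Ico (s.x + 2) (s.R + 1), s.colP m + s.win

noncomputable def right (s : St) : St :=
  { H := fun m j => s.H m j || (m == s.x && j == s.i), V := s.V, x := s.x + 1, i := s.i,
    R := max s.R (s.x + 1) }

noncomputable def left (s : St) : St :=
  { H := fun m j => s.H m j || (m == s.x - 1 && j == s.i), V := s.V, x := s.x - 1, i := s.i,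
    R := max s.R (s.x - 1) }

noncomputable def vert (s : St) : St :=
  { H := s.H, V := fun m => s.V m || (m == s.x), x := s.x, i := !s.i,
    R := max s.R s.x }

def allVis (s : St) : Bool := s.H s.x s.i && s.H (s.x - 1) s.i && s.V s.x
def canR (s : St) : Bool := !s.H s.x s.i || s.allVis
def canL (s : St) : Bool := !s.H (s.x - 1) s.i || s.allVis
def canV (s : St) : Bool := !s.V s.x || s.allVis

structure Inv (s : St) : Prop where
  deg : ∀ m j, m ≠ 0 → (m ≠ s.x ∨ j ≠ s.i) → okDeg (s.H (m - 1) j) (s.V m) (s.H m j) = true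
  cur : s.x ≠ 0 → (s.H (s.x - 1) s.i || s.V s.x || s.H s.x s.i) = true
  frontV : ∀ m, s.R < m → s.V m = false
  frontH : ∀ m j, s.R < m → s.H (m - 1) j = false
  cross : ∀ m, 1 ≤ m → m ≤ s.R → (s.H (m - 1) false || s.H (m - 1) true) = true
  le : s.x ≤ s.R

lemma colP_rel (s : St) (m : ℤ) (j : Bool) :
    s.colP m = phiR (s.H (m - 1) j) (s.H (m - 1) !j) (s.V m) (s.H m j) (s.H m !j) := by
  unfold colP
  cases j
  · rfl
  · exact phiR_flip _ _ _ _ _

lemma colP_of_gt {s : St} (hs : s.Inv) {m : ℤ} (hm : s.R < m) : s.colP m = 0 := by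
  unfold colP
  have h1 : ∀ j, s.H m j = false := by
    intro j
    have := hs.frontH (m + 1) j (by omega)
    rwa [add_sub_cancel_right] at this
  rw [hs.frontH m false hm, hs.frontH m true hm, hs.frontV m hm, h1, h1]
  exact phiR_zero

lemma sum_Ico_left (f : ℤ → ℤ) {a b : ℤ} (h : a < b) :
    ∑ m ∈ Finset.Ico a b, f m = f a + ∑ m ∈ Finset.Ico (a + 1) b, f m := by
  rw [← Finset.insert_Ico_add_one_left_eq_Ico h, Finset.sum_insert (by simp)]

/-- peeling off the first term of the sum -/
lemma sum_peel {s : St} (hs : s.Inv) (a : ℤ) :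
    ∑ m ∈ Finset.Ico a (s.R + 1), s.colP m =
      s.colP a + ∑ m ∈ Finset.Ico (a + 1) (s.R + 1), s.colP m := by
  by_cases h : a < s.R + 1
  · exact sum_Ico_left _ h
  · rw [Finset.Ico_eq_empty (by omega), Finset.Ico_eq_empty (by omega), colP_of_gt hs (by omega)]
    simp

lemma Y_right {s : St} (hs : s.Inv) :
    s.right.Y - s.Y = 21 - phiR (s.H (s.x + 1) s.i) (s.H (s.x + 1) !s.i) (s.V (s.x + 2))
      (s.H (s.x + 2) s.i) (s.H (s.x + 2) !s.i)
      + psi (s.H (s.x - 1) s.i) (s.H (s.x - 1) !s.i) (s.V s.x) true (s.H s.x !s.i)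
        (s.V (s.x + 1)) (s.H (s.x + 1) s.i) (s.H (s.x + 1) !s.i) (s.V (s.x + 2))
        (s.H (s.x + 2) s.i) (s.H (s.x + 2) !s.i) - s.win := by
  have hwin : s.right.win = psi (s.H (s.x - 1) s.i) (s.H (s.x - 1) !s.i) (s.V s.x) true
      (s.H s.x !s.i) (s.V (s.x + 1)) (s.H (s.x + 1) s.i) (s.H (s.x + 1) !s.i) (s.V (s.x + 2))
        (s.H (s.x + 2) s.i) (s.H (s.x + 2) !s.i) := by
    unfold win right
    have e1 : s.x + 1 - 2 = s.x - 1 := by ring
    have e2 : s.x + 1 - 1 = s.x := by ring
    have e3 : s.x + 1 + 1 = s.x + 2 := by ring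
    simp only [e1, e2, e3]
    have n1 : (s.x - 1 == s.x) = false := by simp
    have n2 : (s.x + 1 == s.x) = false := by simp
    have n3 : (s.x + 2 == s.x) = false := by simp
    simp [n1, n2, n3]
  have hsum : ∑ m ∈ Finset.Ico (s.right.x + 2) (s.right.R + 1), s.right.colP m =
      ∑ m ∈ Finset.Ico (s.x + 2 + 1) (s.R + 1), s.colP m := by
    have e4 : s.right.x + 2 = s.x + 2 + 1 := by simp only [right]; ring
    have hcol : ∀ m, s.x + 2 < m → s.right.colP m = s.colP m := by
      intro m hm
      unfold colP right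
      have n1 : (m - 1 == s.x) = false := by simp; omega
      have n2 : (m == s.x) = false := by simp; omega
      simp [n1, n2]
    rw [e4]
    by_cases hR : s.x + 1 ≤ s.R
    · have : s.right.R = s.R := by simp only [right]; omega
      rw [this]
      apply Finset.sum_congr rfl
      intro m hm
      rw [Finset.mem_Ico] at hm
      exact hcol m (by omega)
    · have : s.right.R = s.x + 1 := by simp only [right]; omega
      rw [this, Finset.Ico_eq_empty (by omega), Finset.Ico_eq_empty (by omega)]
      simp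
  have hp := sum_peel hs (s.x + 2)
  have e5 : s.x + 2 - 1 = s.x + 1 := by ring
  rw [colP_rel s (s.x + 2) s.i, e5] at hp
  unfold Y
  rw [hsum, hwin, hp]
  simp only [right]
  ring

lemma Y_left {s : St} (hs : s.Inv) :
    s.left.Y - s.Y = -21 + phiR (s.H s.x s.i) (s.H s.x !s.i) (s.V (s.x + 1))
      (s.H (s.x + 1) s.i) (s.H (s.x + 1) !s.i)
      + psi (s.H (s.x - 3) s.i) (s.H (s.x - 3) !s.i) (s.V (s.x - 2)) (s.H (s.x - 2) s.i)
        (s.H (s.x - 2) !s.i) (s.V (s.x - 1)) true (s.H (s.x - 1) !s.i) (s.V s.x)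
        (s.H s.x s.i) (s.H s.x !s.i) - s.win := by
  have hwin : s.left.win = psi (s.H (s.x - 3) s.i) (s.H (s.x - 3) !s.i) (s.V (s.x - 2))
      (s.H (s.x - 2) s.i) (s.H (s.x - 2) !s.i) (s.V (s.x - 1)) true (s.H (s.x - 1) !s.i)
        (s.V s.x) (s.H s.x s.i) (s.H s.x !s.i) := by
    unfold win left
    have e1 : s.x - 1 - 2 = s.x - 3 := by ring
    have e2 : s.x - 1 - 1 = s.x - 2 := by ring
    have e3 : s.x - 1 + 1 = s.x := by ring
    simp only [e1, e2, e3]
    have n1 : (s.x - 3 == s.x - 1) = false := by simp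
    have n2 : (s.x - 2 == s.x - 1) = false := by simp
    have n3 : (s.x == s.x - 1) = false := by simp; omega
    simp [n1, n2, n3]
  have hsum : ∑ m ∈ Finset.Ico (s.left.x + 2) (s.left.R + 1), s.left.colP m =
      ∑ m ∈ Finset.Ico (s.x + 1) (s.R + 1), s.colP m := by
    have e4 : s.left.x + 2 = s.x + 1 := by simp only [left]; ring
    have hcol : ∀ m, s.x + 1 ≤ m → s.left.colP m = s.colP m := by
      intro m hm
      unfold colP left
      have n1 : (m - 1 == s.x - 1) = false := by simp; omega
      have n2 : (m == s.x - 1) = false := by simp; omega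
      simp [n1, n2]
    have hle := hs.le
    have : s.left.R = s.R := by simp only [left]; omega
    rw [e4, this]
    apply Finset.sum_congr rfl
    intro m hm
    rw [Finset.mem_Ico] at hm
    exact hcol m (by omega)
  have hp := sum_peel hs (s.x + 1)
  have e5 : s.x + 1 - 1 = s.x := by ring
  have e6 : s.x + 1 + 1 = s.x + 2 := by ring
  rw [colP_rel s (s.x + 1) s.i, e5, e6] at hp
  unfold Y
  rw [hsum, hwin, hp]
  simp only [left]
  ring

lemma Y_vert {s : St} (hs : s.Inv) :
    s.vert.Y - s.Y =
      psi (s.H (s.x - 2) !s.i) (s.H (s.x - 2) s.i) (s.V (s.x - 1)) (s.H (s.x - 1) !s.i)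
        (s.H (s.x - 1) s.i) true (s.H s.x !s.i) (s.H s.x s.i) (s.V (s.x + 1))
        (s.H (s.x + 1) !s.i) (s.H (s.x + 1) s.i) - s.win := by
  have hwin : s.vert.win = psi (s.H (s.x - 2) !s.i) (s.H (s.x - 2) s.i) (s.V (s.x - 1))
      (s.H (s.x - 1) !s.i) (s.H (s.x - 1) s.i) true (s.H s.x !s.i) (s.H s.x s.i)
        (s.V (s.x + 1)) (s.H (s.x + 1) !s.i) (s.H (s.x + 1) s.i) := by
    unfold win vert
    have n1 : (s.x - 1 == s.x) = false := by simp
    have n2 : (s.x + 1 == s.x) = false := by simp
    simp [n1, n2]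
  have hsum : ∑ m ∈ Finset.Ico (s.vert.x + 2) (s.vert.R + 1), s.vert.colP m =
      ∑ m ∈ Finset.Ico (s.x + 2) (s.R + 1), s.colP m := by
    have hcol : ∀ m, s.x + 2 ≤ m → s.vert.colP m = s.colP m := by
      intro m hm
      unfold colP vert
      have n1 : (m == s.x) = false := by simp; omega
      simp [n1]
    have hle := hs.le
    have : s.vert.R = s.R := by simp only [vert]; omega
    rw [this]
    apply Finset.sum_congr rfl
    intro m hm
    rw [Finset.mem_Ico] at hm
    simp only [vert] at hm
    exact hcol m (by omega)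
  unfold Y
  rw [hsum, hwin]
  simp only [vert]
  ring

lemma main_ineq {s : St} (hs : s.Inv) (hx : 3 ≤ s.x) :
    (if s.canR = true then s.right.Y - s.Y else 0) + (if s.canL = true then s.left.Y - s.Y else 0)
      + (if s.canV = true then s.vert.Y - s.Y else 0) ≤
      if (s.H s.x s.i || s.H s.x !s.i) = true then 0 else 18 := by
  have hRx := hs.le
  have hcross : ∀ m, 1 ≤ m → m ≤ s.R → (s.H (m - 1) s.i || s.H (m - 1) !s.i) = true := by
    intro m h1 h2
    have := hs.cross m h1 h2
    cases s.i
    · exact this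
    · rw [Bool.or_comm]; exact this
  have hzero : ∀ m, 1 ≤ m → (s.H (m - 1) s.i || s.H (m - 1) !s.i) = true ∨
      (s.V m = false ∧ s.H m s.i = false ∧ s.H m (!s.i) = false) := by
    intro m hm
    by_cases h : m ≤ s.R
    · exact Or.inl (hcross m hm h)
    · right
      refine ⟨hs.frontV m (by omega), ?_, ?_⟩
      · have := hs.frontH (m + 1) s.i (by omega)
        rwa [add_sub_cancel_right] at this
      · have := hs.frontH (m + 1) (!s.i) (by omega)
        rwa [add_sub_cancel_right] at this
  have e21 : s.x - 2 - 1 = s.x - 3 := by ring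
  have e11 : s.x - 1 - 1 = s.x - 2 := by ring
  have e01 : s.x + 1 - 1 = s.x := by ring
  have e02 : s.x + 2 - 1 = s.x + 1 := by ring
  have A1 := hcross (s.x - 2) (by omega) (by omega)
  have A2 := hs.deg (s.x - 2) s.i (by omega) (Or.inl (by omega))
  have A3 := hs.deg (s.x - 2) (!s.i) (by omega) (Or.inl (by omega))
  have A4 := hcross (s.x - 1) (by omega) (by omega)
  have A5 := hs.deg (s.x - 1) s.i (by omega) (Or.inl (by omega))
  have A6 := hs.deg (s.x - 1) (!s.i) (by omega) (Or.inl (by omega))
  have A7 := hcross s.x (by omega) (by omega)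
  have A8 := hs.cur (by omega)
  have A9 := hs.deg s.x (!s.i) (by omega) (Or.inr (by simp))
  have A10 := hs.deg (s.x + 1) s.i (by omega) (Or.inl (by omega))
  have A11 := hs.deg (s.x + 1) (!s.i) (by omega) (Or.inl (by omega))
  have A12 := hzero (s.x + 1) (by omega)
  have A13 := hs.deg (s.x + 2) s.i (by omega) (Or.inl (by omega))
  have A14 := hs.deg (s.x + 2) (!s.i) (by omega) (Or.inl (by omega))
  have A15 := hzero (s.x + 2) (by omega)
  rw [e21] at A1 A2 A3
  rw [e11] at A4 A5 A6
  rw [e01] at A10 A11 A12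
  rw [e02] at A13 A14 A15
  have key := window_check _ _ A1 _ _ _ A2 A3 A4 _ _ _ A5 A6 A7 _ _ _ A8 A9 _ _ _ A10 A11 A12
    _ _ _ A13 A14 A15
  unfold drift at key
  rw [Y_right hs, Y_left hs, Y_vert hs]
  unfold canR canL canV allVis win
  exact key


lemma okDeg_true1 : ∀ a b c : Bool, (a || b || c) = true → (!c || (c && a && b)) = true →
    okDeg a b true = true := by decide

lemma okDeg_true2 : ∀ a b c : Bool, (a || b || c) = true → (!a || (c && a && b)) = true →
    okDeg true b c = true := by decide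

lemma okDeg_true3 : ∀ a b c : Bool, (a || b || c) = true → (!b || (c && a && b)) = true →
    okDeg a true c = true := by decide

lemma Inv.right {s : St} (hs : s.Inv) (hc : s.canR = true) : s.right.Inv where
  deg := by
    intro m j hm hmj
    simp only [St.right] at hmj ⊢
    by_cases hcur : m = s.x ∧ j = s.i
    · obtain ⟨rfl, rfl⟩ := hcur
      have n1 : (s.x - 1 == s.x) = false := by simp
      simp only [n1, beq_self_eq_true, Bool.and_self, Bool.or_true, Bool.false_and, Bool.or_false]
      exact okDeg_true1 _ _ _ (hs.cur hm) hc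
    · have h1 : (m - 1 == s.x && j == s.i) = false := by
        rw [Bool.and_eq_false_iff]
        by_cases h : j = s.i
        · left
          rw [beq_eq_false_iff_ne]
          intro h'
          rcases hmj with h2 | h2
          · exact h2 (by omega)
          · exact h2 h
        · right
          rw [beq_eq_false_iff_ne]
          exact h
      have h2 : (m == s.x && j == s.i) = false := by
        rw [Bool.and_eq_false_iff]
        by_cases h : j = s.i
        · left
          rw [beq_eq_false_iff_ne]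
          intro h'
          exact hcur ⟨h', h⟩
        · right
          rw [beq_eq_false_iff_ne]
          exact h
      rw [h1, h2, Bool.or_false, Bool.or_false]
      apply hs.deg m j hm
      by_cases h : m = s.x
      · right
        intro h'
        exact hcur ⟨h, h'⟩
      · exact Or.inl h
  cur := by
    intro _
    simp only [St.right]
    have e1 : s.x + 1 - 1 = s.x := by ring
    simp [e1]
  frontV := by
    intro m hm
    simp only [St.right] at hm ⊢
    exact hs.frontV m (by omega)
  frontH := by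
    intro m j hm
    simp only [St.right] at hm ⊢
    have n1 : (m - 1 == s.x) = false := by
      rw [beq_eq_false_iff_ne]; omega
    rw [hs.frontH m j (by omega), n1]
    simp
  cross := by
    intro m h1 h2
    simp only [St.right] at h2 ⊢
    by_cases h : m ≤ s.R
    · have := hs.cross m h1 h
      rw [Bool.or_eq_true] at this
      rcases this with h' | h' <;> simp [h']
    · have hle := hs.le
      have : m = s.x + 1 := by omega
      subst this
      have e1 : s.x + 1 - 1 = s.x := by ring
      rw [e1]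
      cases s.i <;> simp
  le := by
    simp only [St.right]
    exact le_max_right _ _

lemma Inv.left {s : St} (hs : s.Inv) (hc : s.canL = true) : s.left.Inv where
  deg := by
    intro m j hm hmj
    simp only [St.left] at hmj ⊢
    by_cases hcur : m = s.x ∧ j = s.i
    · obtain ⟨rfl, rfl⟩ := hcur
      have n1 : (s.x == s.x - 1) = false := by
        rw [beq_eq_false_iff_ne]; omega
      simp only [n1, beq_self_eq_true, Bool.and_self, Bool.or_true, Bool.false_and, Bool.or_false]
      exact okDeg_true2 _ _ _ (hs.cur hm) hc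
    · have h1 : (m - 1 == s.x - 1 && j == s.i) = false := by
        rw [Bool.and_eq_false_iff]
        by_cases h : j = s.i
        · left
          rw [beq_eq_false_iff_ne]
          intro h'
          exact hcur ⟨by omega, h⟩
        · right
          rw [beq_eq_false_iff_ne]
          exact h
      have h2 : (m == s.x - 1 && j == s.i) = false := by
        rw [Bool.and_eq_false_iff]
        by_cases h : j = s.i
        · left
          rw [beq_eq_false_iff_ne]
          intro h'
          rcases hmj with h2 | h2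
          · exact h2 h'
          · exact h2 h
        · right
          rw [beq_eq_false_iff_ne]
          exact h
      rw [h1, h2, Bool.or_false, Bool.or_false]
      apply hs.deg m j hm
      by_cases h : m = s.x
      · right
        intro h'
        exact hcur ⟨h, h'⟩
      · exact Or.inl h
  cur := by
    intro _
    simp only [St.left]
    simp
  frontV := by
    intro m hm
    simp only [St.left] at hm ⊢
    exact hs.frontV m (by omega)
  frontH := by
    intro m j hm
    simp only [St.left] at hm ⊢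
    have hle := hs.le
    have n1 : (m - 1 == s.x - 1) = false := by
      rw [beq_eq_false_iff_ne]; omega
    rw [hs.frontH m j (by omega), n1]
    simp
  cross := by
    intro m h1 h2
    simp only [St.left] at h2 ⊢
    have hle := hs.le
    have := hs.cross m h1 (by omega)
    rw [Bool.or_eq_true] at this
    rcases this with h' | h' <;> simp [h']
  le := by
    simp only [St.left]
    exact le_max_right _ _

lemma Inv.vert {s : St} (hs : s.Inv) (hc : s.canV = true) : s.vert.Inv where
  deg := by
    intro m j hm hmj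
    simp only [St.vert] at hmj ⊢
    by_cases hx : m = s.x
    · subst hx
      have hj : j = s.i := by
        rcases hmj with h | h
        · exact absurd rfl h
        · cases h1 : s.i <;> cases h2 : j <;> simp_all
      subst hj
      simp only [beq_self_eq_true, Bool.or_true]
      exact okDeg_true3 _ _ _ (hs.cur hm) hc
    · have n1 : (m == s.x) = false := by
        rw [beq_eq_false_iff_ne]; exact hx
      rw [n1, Bool.or_false]
      exact hs.deg m j hm (Or.inl hx)
  cur := by
    intro _
    simp only [St.vert]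
    simp
  frontV := by
    intro m hm
    simp only [St.vert] at hm ⊢
    have n1 : (m == s.x) = false := by
      rw [beq_eq_false_iff_ne]; omega
    rw [hs.frontV m (by omega), n1]
    rfl
  frontH := by
    intro m j hm
    simp only [St.vert] at hm ⊢
    exact hs.frontH m j (by omega)
  cross := by
    intro m h1 h2
    simp only [St.vert] at h2 ⊢
    have hle := hs.le
    exact hs.cross m h1 (by omega)
  le := by
    simp only [St.vert]
    exact le_max_right _ _

lemma Y_ge {s : St} : 21 * s.x ≤ s.Y := by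
  unfold Y
  have h1 : 0 ≤ ∑ m ∈ Finset.Ico (s.x + 2) (s.R + 1), s.colP m :=
    Finset.sum_nonneg (fun m _ => phiR_nonneg _ _ _ _ _)
  have h2 : 0 ≤ s.win := psi_nonneg _ _ _ _ _ _ _ _ _ _ _
  omega

end St


/-! ### Neighbourhoods in the ladder -/

lemma ladder_nbhd (u : ℤ × Bool) :
    {y | ladder.Adj u y} = {(u.1 + 1, u.2), (u.1 - 1, u.2), (u.1, !u.2)} := by
  ext ⟨m, j⟩
  obtain ⟨x, i⟩ := u
  simp only [ladder, Set.mem_ofPred_eq, Set.mem_insert_iff, Set.mem_singleton_iff, Prod.mk.injEq]
  constructor
  · rintro (⟨h1, h2 | h2⟩ | ⟨h1, h2⟩)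
    · left; exact ⟨h2, h1.symm⟩
    · right; left; exact ⟨by omega, h1.symm⟩
    · right; right
      refine ⟨h1.symm, ?_⟩
      cases i <;> cases j <;> simp_all
  · rintro (⟨h1, h2⟩ | ⟨h1, h2⟩ | ⟨h1, h2⟩)
    · left; exact ⟨h2.symm, Or.inl h1⟩
    · left; exact ⟨h2.symm, Or.inr (by omega)⟩
    · right
      refine ⟨h1.symm, ?_⟩
      rw [h2]
      cases i <;> simp

lemma ladder_fin (u : ℤ × Bool) : {y | ladder.Adj u y}.Finite := by
  rw [ladder_nbhd]
  exact Set.toFinite _

lemma ladder_reg (u : ℤ × Bool) : {y | ladder.Adj u y}.ncard = 3 := by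
  rw [ladder_nbhd]
  rw [Set.ncard_insert_of_notMem, Set.ncard_pair]
  · intro h
    simp only [Prod.mk.injEq] at h
    omega
  · simp only [Set.mem_insert_iff, Set.mem_singleton_iff, Prod.mk.injEq, not_or, not_and]
    constructor
    · intro h; omega
    · intro h; omega

/-! ### The abstract state of a path -/

/-- largest column visited -/
noncomputable def Rm (q : ℕ → ℤ × Bool) : ℕ → ℤ
  | 0 => (q 0).1
  | t + 1 => max (Rm q t) (q (t + 1)).1

open Classical in
noncomputable def stOf (q : ℕ → ℤ × Bool) (t : ℕ) : St where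
  H := fun m j => decide (s((m, j), (m + 1, j)) ∈ visitedEdges q t)
  V := fun m => decide (s((m, false), (m, true)) ∈ visitedEdges q t)
  x := (q t).1
  i := (q t).2
  R := Rm q t

lemma visitedEdges_succ {V : Type*} (q : ℕ → V) (t : ℕ) :
    visitedEdges q (t + 1) = insert s(q t, q (t + 1)) (visitedEdges q t) := by
  ext e
  simp only [visitedEdges, Set.mem_ofPred_eq, Set.mem_insert_iff]
  constructor
  · rintro ⟨s, hs, rfl⟩
    rcases Nat.lt_or_ge s t with h | h
    · exact Or.inr ⟨s, h, rfl⟩
    · have : s = t := by omega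
      subst this
      exact Or.inl rfl
  · rintro (rfl | ⟨s, hs, rfl⟩)
    · exact ⟨t, by omega, rfl⟩
    · exact ⟨s, by omega, rfl⟩

lemma stOf_right {q : ℕ → ℤ × Bool} {t : ℕ} (h : q (t + 1) = ((q t).1 + 1, (q t).2)) :
    stOf q (t + 1) = (stOf q t).right := by
  classical
  unfold stOf St.right
  simp only [visitedEdges_succ, h, Rm]
  congr 1
  · funext m j
    rw [Bool.eq_iff_iff]
    simp only [decide_eq_true_eq, Set.mem_insert_iff, Sym2.eq_iff, Bool.or_eq_true,
      Bool.and_eq_true, beq_iff_eq, Prod.ext_iff]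
    constructor
    · rintro (h1 | h1)
      · right
        rcases h1 with ⟨⟨h1, h2⟩, _⟩ | ⟨⟨h1, h2⟩, h3, h4⟩
        · exact ⟨h1, h2⟩
        · omega
      · exact Or.inl h1
    · rintro (h1 | ⟨h1, h2⟩)
      · exact Or.inr h1
      · left; left
        exact ⟨⟨h1, h2⟩, by omega, h2⟩
  · funext m
    rw [Bool.eq_iff_iff]
    simp only [decide_eq_true_eq, Set.mem_insert_iff, Sym2.eq_iff, Prod.ext_iff]
    constructor
    · rintro (h1 | h1)
      · rcases h1 with ⟨⟨h1, h2⟩, h3, h4⟩ | ⟨⟨h1, h2⟩, h3, h4⟩ <;> omega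
      · exact h1
    · exact Or.inr

lemma stOf_left {q : ℕ → ℤ × Bool} {t : ℕ} (h : q (t + 1) = ((q t).1 - 1, (q t).2)) :
    stOf q (t + 1) = (stOf q t).left := by
  classical
  unfold stOf St.left
  simp only [visitedEdges_succ, h, Rm]
  congr 1
  · funext m j
    rw [Bool.eq_iff_iff]
    simp only [decide_eq_true_eq, Set.mem_insert_iff, Sym2.eq_iff, Bool.or_eq_true,
      Bool.and_eq_true, beq_iff_eq, Prod.ext_iff]
    constructor
    · rintro (h1 | h1)
      · right
        rcases h1 with ⟨⟨h1, h2⟩, h3, h4⟩ | ⟨⟨h1, h2⟩, h3, h4⟩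
        · omega
        · exact ⟨h1, h2⟩
      · exact Or.inl h1
    · rintro (h1 | ⟨h1, h2⟩)
      · exact Or.inr h1
      · left; right
        exact ⟨⟨h1, h2⟩, by omega, h2⟩
  · funext m
    rw [Bool.eq_iff_iff]
    simp only [decide_eq_true_eq, Set.mem_insert_iff, Sym2.eq_iff, Prod.ext_iff]
    constructor
    · rintro (h1 | h1)
      · rcases h1 with ⟨⟨h1, h2⟩, h3, h4⟩ | ⟨⟨h1, h2⟩, h3, h4⟩ <;> omega
      · exact h1
    · exact Or.inr

lemma sym_vert (x : ℤ) (i : Bool) : s((x, i), (x, !i)) = s((x, false), (x, true)) := by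
  cases i
  · rfl
  · exact Sym2.eq_swap

lemma stOf_vert {q : ℕ → ℤ × Bool} {t : ℕ} (h : q (t + 1) = ((q t).1, !(q t).2)) :
    stOf q (t + 1) = (stOf q t).vert := by
  classical
  have hs : s(q t, q (t + 1)) = s(((q t).1, false), ((q t).1, true)) := by
    rw [h, ← sym_vert (q t).1 (q t).2]
  unfold stOf St.vert
  simp only [visitedEdges_succ, hs, Rm]
  simp only [h]
  congr 1
  · funext m j
    rw [Bool.eq_iff_iff]
    simp only [decide_eq_true_eq, Set.mem_insert_iff, Sym2.eq_iff, Prod.ext_iff]
    constructor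
    · rintro (h1 | h1)
      · rcases h1 with ⟨⟨h1, h2⟩, h3, h4⟩ | ⟨⟨h1, h2⟩, h3, h4⟩ <;> omega
      · exact h1
    · exact Or.inr
  · funext m
    rw [Bool.eq_iff_iff]
    simp only [decide_eq_true_eq, Set.mem_insert_iff, Sym2.eq_iff, Bool.or_eq_true,
      beq_iff_eq, Prod.ext_iff]
    constructor
    · rintro (h1 | h1)
      · right
        rcases h1 with ⟨⟨h1, h2⟩, _⟩ | ⟨⟨h1, h2⟩, h3, h4⟩ <;> exact h1
      · exact Or.inl h1
    · rintro (h1 | h1)
      · exact Or.inr h1
      · left; left
        exact ⟨⟨h1, trivial⟩, h1, trivial⟩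

/-! ### Choices in terms of the state -/

lemma mem_fresh_right (q : ℕ → ℤ × Bool) (t : ℕ) :
    ((q t).1 + 1, (q t).2) ∈ freshNeighbors ladder q t ↔
      (stOf q t).H (stOf q t).x (stOf q t).i = false := by
  simp only [freshNeighbors, stOf, Set.mem_ofPred_eq, decide_eq_false_iff_not]
  constructor
  · rintro ⟨_, h⟩; exact h
  · intro h
    exact ⟨Or.inl ⟨rfl, Or.inl rfl⟩, h⟩

lemma mem_fresh_left (q : ℕ → ℤ × Bool) (t : ℕ) :
    ((q t).1 - 1, (q t).2) ∈ freshNeighbors ladder q t ↔
      (stOf q t).H ((stOf q t).x - 1) (stOf q t).i = false := by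
  simp only [freshNeighbors, stOf, Set.mem_ofPred_eq, decide_eq_false_iff_not]
  have : s(q t, ((q t).1 - 1, (q t).2)) = s(((q t).1 - 1, (q t).2), ((q t).1 - 1 + 1, (q t).2)) := by
    rw [Sym2.eq_swap, sub_add_cancel]
  rw [this]
  constructor
  · rintro ⟨_, h⟩; exact h
  · intro h
    exact ⟨Or.inl ⟨rfl, Or.inr (by simp)⟩, h⟩

lemma mem_fresh_vert (q : ℕ → ℤ × Bool) (t : ℕ) :
    ((q t).1, !(q t).2) ∈ freshNeighbors ladder q t ↔
      (stOf q t).V (stOf q t).x = false := by
  simp only [freshNeighbors, stOf, Set.mem_ofPred_eq, decide_eq_false_iff_not]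
  have : s(q t, ((q t).1, !(q t).2)) = s(((q t).1, false), ((q t).1, true)) :=
    sym_vert (q t).1 (q t).2
  rw [this]
  constructor
  · rintro ⟨_, h⟩; exact h
  · intro h
    refine ⟨Or.inr ⟨rfl, ?_⟩, h⟩
    cases (q t).2 <;> simp

lemma fresh_nonempty (q : ℕ → ℤ × Bool) (t : ℕ) :
    (freshNeighbors ladder q t).Nonempty ↔ (stOf q t).allVis = false := by
  unfold St.allVis
  rw [Bool.and_eq_false_iff, Bool.and_eq_false_iff, ← mem_fresh_right, ← mem_fresh_left,
    ← mem_fresh_vert]
  constructor
  · rintro ⟨y, hy⟩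
    have h1 : y ∈ {y | ladder.Adj (q t) y} := hy.1
    rw [ladder_nbhd] at h1
    rcases h1 with rfl | rfl | rfl
    · exact Or.inl (Or.inl hy)
    · exact Or.inl (Or.inr hy)
    · exact Or.inr hy
  · rintro ((h | h) | h)
    · exact ⟨_, h⟩
    · exact ⟨_, h⟩
    · exact ⟨_, h⟩

lemma mem_choices_aux (q : ℕ → ℤ × Bool) (t : ℕ) (y : ℤ × Bool) (b : Bool)
    (hadj : ladder.Adj (q t) y) (hy : y ∈ freshNeighbors ladder q t ↔ b = false) :
    y ∈ choices ladder q t ↔ (!b || (stOf q t).allVis) = true := by
  unfold choices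
  split_ifs with h
  · rw [hy]
    rw [fresh_nonempty] at h
    rw [h]
    simp
  · rw [fresh_nonempty] at h
    have h' : (stOf q t).allVis = true := by
      simpa using h
    rw [h']
    simp only [Bool.or_true, iff_true]
    exact hadj

lemma mem_choices_right (q : ℕ → ℤ × Bool) (t : ℕ) :
    ((q t).1 + 1, (q t).2) ∈ choices ladder q t ↔ (stOf q t).canR = true := by
  apply mem_choices_aux
  · exact Or.inl ⟨rfl, Or.inl rfl⟩
  · exact mem_fresh_right q t

lemma mem_choices_left (q : ℕ → ℤ × Bool) (t : ℕ) :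
    ((q t).1 - 1, (q t).2) ∈ choices ladder q t ↔ (stOf q t).canL = true := by
  apply mem_choices_aux
  · exact Or.inl ⟨rfl, Or.inr (by simp)⟩
  · exact mem_fresh_left q t

lemma mem_choices_vert (q : ℕ → ℤ × Bool) (t : ℕ) :
    ((q t).1, !(q t).2) ∈ choices ladder q t ↔ (stOf q t).canV = true := by
  apply mem_choices_aux
  · exact Or.inr ⟨rfl, by cases (q t).2 <;> simp⟩
  · exact mem_fresh_vert q t

lemma choices_cases {q : ℕ → ℤ × Bool} {t : ℕ} {y : ℤ × Bool} (hy : y ∈ choices ladder q t) :
    (y = ((q t).1 + 1, (q t).2) ∧ (stOf q t).canR = true) ∨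
    (y = ((q t).1 - 1, (q t).2) ∧ (stOf q t).canL = true) ∨
    (y = ((q t).1, !(q t).2) ∧ (stOf q t).canV = true) := by
  have h1 : y ∈ {y | ladder.Adj (q t) y} := choices_subset q t hy
  rw [ladder_nbhd] at h1
  rcases h1 with rfl | rfl | rfl
  · exact Or.inl ⟨rfl, (mem_choices_right q t).1 hy⟩
  · exact Or.inr (Or.inl ⟨rfl, (mem_choices_left q t).1 hy⟩)
  · exact Or.inr (Or.inr ⟨rfl, (mem_choices_vert q t).1 hy⟩)

lemma choices_sum (q : ℕ → ℤ × Bool) (t : ℕ) (hfin : (choices ladder q t).Finite)
    (f : ℤ × Bool → ℝ) :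
    ∑ y ∈ hfin.toFinset, f y =
      (if (stOf q t).canR = true then f ((q t).1 + 1, (q t).2) else 0) +
      (if (stOf q t).canL = true then f ((q t).1 - 1, (q t).2) else 0) +
      (if (stOf q t).canV = true then f ((q t).1, !(q t).2) else 0) := by
  classical
  have hS : hfin.toFinset = ({((q t).1 + 1, (q t).2), ((q t).1 - 1, (q t).2),
      ((q t).1, !(q t).2)} : Finset (ℤ × Bool)).filter (fun y => y ∈ choices ladder q t) := by
    ext y
    simp only [Set.Finite.mem_toFinset, Finset.mem_filter, Finset.mem_insert,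
      Finset.mem_singleton]
    constructor
    · intro hy
      refine ⟨?_, hy⟩
      rcases choices_cases hy with h | h | h
      · exact Or.inl h.1
      · exact Or.inr (Or.inl h.1)
      · exact Or.inr (Or.inr h.1)
    · exact fun h => h.2
  rw [hS, Finset.sum_filter, Finset.sum_insert, Finset.sum_insert, Finset.sum_singleton]
  · simp only [mem_choices_right, mem_choices_left, mem_choices_vert]
    ring
  · simp
  · simp only [Finset.mem_insert, Finset.mem_singleton, Prod.mk.injEq, not_or, not_and]
    constructor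
    · intro h; omega
    · intro h; omega

lemma choices_card (q : ℕ → ℤ × Bool) (t : ℕ) :
    ((choices ladder q t).ncard : ℝ) =
      (if (stOf q t).canR = true then 1 else 0) +
      (if (stOf q t).canL = true then 1 else 0) +
      (if (stOf q t).canV = true then (1 : ℝ) else 0) := by
  have hfin := (ladder_fin (q t)).subset (choices_subset q t)
  rw [← choices_sum q t hfin (fun _ => 1), Set.ncard_eq_toFinset_card _ hfin]
  simp

/-! ### Invariants along legal paths -/

lemma inv_of_legal {q : ℕ → ℤ × Bool} {t : ℕ} (h : Legal ladder (0, false) q t) :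
    (stOf q t).Inv := by
  induction t with
  | zero =>
    have h0 := h.1
    have hv : visitedEdges q 0 = ∅ := by
      ext e; simp [visitedEdges]
    constructor
    · intro m j hm hmj
      simp [stOf, hv, okDeg]
    · intro hx
      exfalso
      apply hx
      simp [stOf, h0]
    · intro m hm
      simp [stOf, hv]
    · intro m j hm
      simp [stOf, hv]
    · intro m h1 h2
      exfalso
      simp only [stOf, Rm, h0] at h2
      omega
    · simp [stOf, Rm]
  | succ t ih =>
    have hI := ih (h.mono (by omega))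
    have hc := h.2 t (by omega)
    rcases choices_cases hc with ⟨h1, h2⟩ | ⟨h1, h2⟩ | ⟨h1, h2⟩
    · rw [stOf_right h1]; exact hI.right h2
    · rw [stOf_left h1]; exact hI.left h2
    · rw [stOf_vert h1]; exact hI.vert h2


/-! ### The weight -/

/-- decreasing weight, `Gf r` is of order `r ^ (-6/7)` -/
noncomputable def Gf : ℕ → ℝ
  | 0 => 1
  | r + 1 => Gf r * (1 - (6 / 7) / ((r : ℝ) + 1))

lemma Gf_pos (r : ℕ) : 0 < Gf r := by
  induction r with
  | zero => exact one_pos
  | succ r ih =>
    unfold Gf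
    apply mul_pos ih
    have h1 : (0 : ℝ) < (r : ℝ) + 1 := by positivity
    have h2 : (6 / 7 : ℝ) / ((r : ℝ) + 1) < 1 := by
      rw [div_lt_one h1]
      have : (0 : ℝ) ≤ r := Nat.cast_nonneg r
      linarith
    linarith

/-- `r * Gf r` grows at least logarithmically -/
lemma rGf_lower (r : ℕ) :
    (1 / 7 : ℝ) + (1 / 49) * ∑ j ∈ Finset.range r, (1 : ℝ) / ((j : ℝ) + 1) ≤
      ((r : ℝ) + 1) * Gf (r + 1) := by
  induction r with
  | zero =>
    unfold Gf Gf
    norm_num
  | succ r ih =>
    rw [Finset.sum_range_succ]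
    have hbase : (1 / 7 : ℝ) ≤ ((r : ℝ) + 1) * Gf (r + 1) := by
      refine le_trans ?_ ih
      have : (0 : ℝ) ≤ ∑ j ∈ Finset.range r, (1 : ℝ) / ((j : ℝ) + 1) :=
        Finset.sum_nonneg (fun j _ => by positivity)
      linarith
    have hr : (0 : ℝ) < (r : ℝ) + 1 := by positivity
    have hstep : (((r + 1 : ℕ) : ℝ) + 1) * Gf (r + 1 + 1) =
        ((r : ℝ) + 1) * Gf (r + 1) * (1 + (1 / 7) / ((r : ℝ) + 1)) := by
      conv_lhs => unfold Gf
      push_cast
      have h2 : (r : ℝ) + 1 + 1 ≠ 0 := by positivity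
      field_simp
      ring
    rw [hstep]
    have h3 : (1 / 7 : ℝ) * ((1 / 7) / ((r : ℝ) + 1)) ≤
        ((r : ℝ) + 1) * Gf (r + 1) * ((1 / 7) / ((r : ℝ) + 1)) :=
      mul_le_mul_of_nonneg_right hbase (by positivity)
    have h4 : (1 / 7 : ℝ) * ((1 / 7) / ((r : ℝ) + 1)) = 1 / 49 * (1 / ((r : ℝ) + 1)) := by
      field_simp
      norm_num
    nlinarith [ih, h3, h4]

lemma rGf_unbounded (a : ℝ) (b : ℕ) : ∃ r : ℕ, b ≤ r ∧ a ≤ 21 * (r : ℝ) * Gf r := by
  have h := Real.tendsto_sum_range_one_div_nat_succ_atTop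
  have h2 := (h.eventually_ge_atTop (49 * |a|)).and (eventually_ge_atTop b)
  obtain ⟨r, hr1, hr2⟩ := h2.exists
  refine ⟨r + 1, by omega, ?_⟩
  have h3 := rGf_lower r
  push_cast
  have h4 : a ≤ |a| := le_abs_self a
  have h5 : (0 : ℝ) ≤ |a| := abs_nonneg a
  have h6 : 0 < Gf (r + 1) := Gf_pos _
  nlinarith [h3, hr1, h4, h5]

/-! ### Largest column -/

lemma le_Rm (q : ℕ → ℤ × Bool) {k t : ℕ} (h : k ≤ t) : (q k).1 ≤ Rm q t := by
  induction t with
  | zero =>
    have : k = 0 := by omega
    subst this
    exact le_rfl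
  | succ t ih =>
    rcases Nat.lt_or_ge k (t + 1) with h' | h'
    · exact (ih (by omega)).trans (le_max_left _ _)
    · have : k = t + 1 := by omega
      subst this
      exact le_max_right _ _

lemma Rm_le (q : ℕ → ℤ × Bool) {t : ℕ} {B : ℤ} (h : ∀ k ≤ t, (q k).1 ≤ B) : Rm q t ≤ B := by
  induction t with
  | zero => exact h 0 le_rfl
  | succ t ih =>
    exact max_le (ih (fun k hk => h k (by omega))) (h (t + 1) le_rfl)

lemma Rm_congr {p q : ℕ → ℤ × Bool} {t : ℕ} (h : ∀ k ≤ t, p k = q k) : Rm p t = Rm q t := by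
  induction t with
  | zero => unfold Rm; rw [h 0 le_rfl]
  | succ t ih =>
    unfold Rm
    rw [ih (fun k hk => h k (by omega)), h (t + 1) le_rfl]

lemma stOf_congr {p q : ℕ → ℤ × Bool} {t : ℕ} (h : ∀ k ≤ t, p k = q k) :
    stOf p t = stOf q t := by
  unfold stOf
  rw [visitedEdges_congr h, Rm_congr h, h t le_rfl]

/-! ### The superharmonic function -/

open Classical in
noncomputable def Fq (n : ℕ) (q : ℕ → ℤ × Bool) (t : ℕ) : ℝ :=
  if n ≤ t ∧ ∀ k, n ≤ k → k ≤ t → 3 ≤ (q k).1 then ((stOf q t).Y : ℝ) * Gf (Rm q t).toNat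
  else 0

lemma Fq_nonneg (n : ℕ) (q : ℕ → ℤ × Bool) (t : ℕ) : 0 ≤ Fq n q t := by
  unfold Fq
  split_ifs with h
  · apply mul_nonneg _ (Gf_pos _).le
    have h1 : 21 * (stOf q t).x ≤ (stOf q t).Y := St.Y_ge
    have h2 : 3 ≤ (stOf q t).x := h.2 t h.1 le_rfl
    have h3 : 0 ≤ (stOf q t).Y := by omega
    exact_mod_cast h3
  · exact le_rfl

lemma Fq_congr (n : ℕ) (p q : ℕ → ℤ × Bool) (t : ℕ) (h : ∀ k ≤ t, p k = q k) :
    Fq n p t = Fq n q t := by
  unfold Fq
  have : (n ≤ t ∧ ∀ k, n ≤ k → k ≤ t → 3 ≤ (p k).1) ↔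
      (n ≤ t ∧ ∀ k, n ≤ k → k ≤ t → 3 ≤ (q k).1) := by
    constructor
    · rintro ⟨h0, h'⟩
      refine ⟨h0, fun k h1 h2 => ?_⟩
      rw [← h k h2]; exact h' k h1 h2
    · rintro ⟨h0, h'⟩
      refine ⟨h0, fun k h1 h2 => ?_⟩
      rw [h k h2]; exact h' k h1 h2
  rw [stOf_congr h, Rm_congr h]
  by_cases hc : n ≤ t ∧ ∀ k, n ≤ k → k ≤ t → 3 ≤ (p k).1
  · rw [if_pos hc, if_pos (this.1 hc)]
  · rw [if_neg hc, if_neg (fun h' => hc (this.2 h'))]

lemma Fq_super (n : ℕ) (p : ℕ → ℤ × Bool) (t : ℕ) (hn : n ≤ t)
    (hp : Legal ladder (0, false) p t) :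
    ∑ y ∈ ((ladder_fin (p t)).subset (choices_subset p t)).toFinset,
        Fq n (Function.update p (t + 1) y) (t + 1) ≤
      ((choices ladder p t).ncard : ℝ) * Fq n p t := by
  classical
  have hupd : ∀ y, ∀ k ≤ t, Function.update p (t + 1) y k = p k := by
    intro y k hk
    exact Function.update_of_ne (by omega) _ _
  by_cases hA : ∀ k, n ≤ k → k ≤ t → 3 ≤ (p k).1
  swap
  · have hz : ∀ y, Fq n (Function.update p (t + 1) y) (t + 1) = 0 := by
      intro y
      unfold Fq
      rw [if_neg]
      rintro ⟨_, h⟩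
      apply hA
      intro k h1 h2
      rw [← hupd y k h2]
      exact h k h1 (by omega)
    have hz' : Fq n p t = 0 := by
      unfold Fq; rw [if_neg (fun h => hA h.2)]
    rw [Finset.sum_eq_zero (fun y _ => hz y), hz', mul_zero]
  have hI := inv_of_legal hp
  set s := stOf p t with hs
  have hx : 3 ≤ s.x := hA t hn le_rfl
  have hFp : Fq n p t = (s.Y : ℝ) * Gf (Rm p t).toNat := by
    unfold Fq; rw [if_pos ⟨hn, hA⟩]
  have hle := hI.le
  have hRs : s.R = Rm p t := rfl
  -- the updated states
  have hst0 : ∀ y, stOf (Function.update p (t + 1) y) t = s := by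
    intro y
    rw [hs]
    exact stOf_congr (hupd y)
  have hstR : stOf (Function.update p (t + 1) ((p t).1 + 1, (p t).2)) (t + 1) = s.right := by
    rw [stOf_right, hst0]
    rw [Function.update_self, hupd _ t le_rfl]
  have hstL : stOf (Function.update p (t + 1) ((p t).1 - 1, (p t).2)) (t + 1) = s.left := by
    rw [stOf_left, hst0]
    rw [Function.update_self, hupd _ t le_rfl]
  have hstV : stOf (Function.update p (t + 1) ((p t).1, !(p t).2)) (t + 1) = s.vert := by
    rw [stOf_vert, hst0]
    rw [Function.update_self, hupd _ t le_rfl]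
  have hG := Gf_pos (Rm p t).toNat
  -- general bound for the next value
  have hbound : ∀ y s', stOf (Function.update p (t + 1) y) (t + 1) = s' → 0 ≤ s'.x →
      Fq n (Function.update p (t + 1) y) (t + 1) ≤ (s'.Y : ℝ) * Gf (s'.R).toNat := by
    intro y s' hs' hx'
    have hRR : Rm (Function.update p (t + 1) y) (t + 1) = s'.R := by
      rw [← hs']; rfl
    unfold Fq
    split_ifs with h
    · rw [hs', hRR]
    · apply mul_nonneg _ (Gf_pos _).le
      have h1 : 21 * s'.x ≤ s'.Y := St.Y_ge
      have h2 : 0 ≤ s'.Y := by omega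
      exact_mod_cast h2
  have hL : Fq n (Function.update p (t + 1) ((p t).1 - 1, (p t).2)) (t + 1) ≤
      (s.left.Y : ℝ) * Gf (Rm p t).toNat := by
    have h1 : s.left.R = Rm p t := by
      simp only [St.left]; omega
    have h2 : 0 ≤ s.left.x := by
      simp only [St.left]; omega
    have := hbound _ _ hstL h2
    rwa [h1] at this
  have hV : Fq n (Function.update p (t + 1) ((p t).1, !(p t).2)) (t + 1) ≤
      (s.vert.Y : ℝ) * Gf (Rm p t).toNat := by
    have h1 : s.vert.R = Rm p t := by
      simp only [St.vert]; omega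
    have h2 : 0 ≤ s.vert.x := by
      simp only [St.vert]; omega
    have := hbound _ _ hstV h2
    rwa [h1] at this
  have hkey := St.main_ineq hI hx
  rw [choices_sum p t ((ladder_fin (p t)).subset (choices_subset p t)), choices_card, hFp]
  by_cases hfr : s.x < s.R
  · -- interior step
    have hR : Fq n (Function.update p (t + 1) ((p t).1 + 1, (p t).2)) (t + 1) ≤
        (s.right.Y : ℝ) * Gf (Rm p t).toNat := by
      have h1 : s.right.R = Rm p t := by
        simp only [St.right]; omega
      have h2 : 0 ≤ s.right.x := by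
        simp only [St.right]; omega
      have := hbound _ _ hstR h2
      rwa [h1] at this
    have hc := hI.cross (s.x + 1) (by omega) (by omega)
    rw [add_sub_cancel_right] at hc
    have hc' : (s.H s.x s.i || s.H s.x !s.i) = true := by
      cases s.i
      · exact hc
      · rw [Bool.or_comm]; exact hc
    rw [if_pos hc'] at hkey
    have hkeyR : ((if s.canR = true then ((s.right.Y : ℝ) - s.Y) else 0) +
        (if s.canL = true then ((s.left.Y : ℝ) - s.Y) else 0) +
        (if s.canV = true then ((s.vert.Y : ℝ) - s.Y) else 0)) ≤ 0 := by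
      have := (Int.cast_le (R := ℝ)).2 hkey
      push_cast at this
      exact this
    have e1 : (if s.canR = true then
        Fq n (Function.update p (t + 1) ((p t).1 + 1, (p t).2)) (t + 1) else 0) ≤
        (if s.canR = true then ((s.right.Y : ℝ) - s.Y) else 0) * Gf (Rm p t).toNat +
        (if s.canR = true then (1 : ℝ) else 0) * ((s.Y : ℝ) * Gf (Rm p t).toNat) := by
      split_ifs
      · linarith
      · linarith
    have e2 : (if s.canL = true then
        Fq n (Function.update p (t + 1) ((p t).1 - 1, (p t).2)) (t + 1) else 0) ≤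
        (if s.canL = true then ((s.left.Y : ℝ) - s.Y) else 0) * Gf (Rm p t).toNat +
        (if s.canL = true then (1 : ℝ) else 0) * ((s.Y : ℝ) * Gf (Rm p t).toNat) := by
      split_ifs
      · linarith
      · linarith
    have e3 : (if s.canV = true then
        Fq n (Function.update p (t + 1) ((p t).1, !(p t).2)) (t + 1) else 0) ≤
        (if s.canV = true then ((s.vert.Y : ℝ) - s.Y) else 0) * Gf (Rm p t).toNat +
        (if s.canV = true then (1 : ℝ) else 0) * ((s.Y : ℝ) * Gf (Rm p t).toNat) := by
      split_ifs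
      · linarith
      · linarith
    have e4 := mul_le_mul_of_nonneg_right hkeyR hG.le
    linarith
  · -- frontier step
    have hxR : s.x = s.R := by omega
    have hH : ∀ j, s.H s.x j = false := by
      intro j
      have := hI.frontH (s.x + 1) j (by omega)
      rwa [add_sub_cancel_right] at this
    have hc' : ¬ ((s.H s.x s.i || s.H s.x !s.i) = true) := by
      rw [hH, hH]; simp
    rw [if_neg hc'] at hkey
    have hcanR : s.canR = true := by
      unfold St.canR
      rw [hH]; rfl
    rw [if_pos hcanR] at hkey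
    have hkeyR : (((s.right.Y : ℝ) - s.Y) +
        (if s.canL = true then ((s.left.Y : ℝ) - s.Y) else 0) +
        (if s.canV = true then ((s.vert.Y : ℝ) - s.Y) else 0)) ≤ 18 := by
      have := (Int.cast_le (R := ℝ)).2 hkey
      push_cast at this
      exact this
    have hR : Fq n (Function.update p (t + 1) ((p t).1 + 1, (p t).2)) (t + 1) ≤
        (s.right.Y : ℝ) * Gf (Rm p t).toNat - 18 * Gf (Rm p t).toNat := by
      have h1 : s.right.R = s.x + 1 := by
        simp only [St.right]; omega
      have h2 : 0 ≤ s.right.x := by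
        simp only [St.right]; omega
      have h3 := hbound _ _ hstR h2
      have h4 : (s.right.R).toNat = (Rm p t).toNat + 1 := by
        rw [h1]; omega
      rw [h4] at h3
      refine h3.trans ?_
      have h5 : 21 * s.right.x ≤ s.right.Y := St.Y_ge
      have h6 : s.right.x = s.x + 1 := rfl
      have h7 : ((21 * (s.x + 1) : ℤ) : ℝ) ≤ (s.right.Y : ℝ) := by
        rw [h6] at h5
        exact_mod_cast h5
      have h8 : (((Rm p t).toNat : ℕ) : ℝ) = (s.x : ℝ) := by
        have : (((Rm p t).toNat : ℕ) : ℤ) = s.x := by omega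
        exact_mod_cast this
      have hxr : (3 : ℝ) ≤ (s.x : ℝ) := by exact_mod_cast hx
      have h9 : (18 : ℝ) ≤ (s.right.Y : ℝ) * ((6 / 7) / ((s.x : ℝ) + 1)) := by
        rw [mul_div_assoc', le_div_iff₀ (by linarith)]
        push_cast at h7
        linarith
      conv_lhs => unfold Gf
      rw [h8]
      have h10 : (s.right.Y : ℝ) * (Gf (Rm p t).toNat * (1 - (6 / 7) / ((s.x : ℝ) + 1))) =
          (s.right.Y : ℝ) * Gf (Rm p t).toNat -
          ((s.right.Y : ℝ) * ((6 / 7) / ((s.x : ℝ) + 1))) * Gf (Rm p t).toNat := by ring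
      rw [h10]
      have := mul_le_mul_of_nonneg_right h9 hG.le
      linarith
    rw [if_pos hcanR, if_pos hcanR]
    have e2 : (if s.canL = true then
        Fq n (Function.update p (t + 1) ((p t).1 - 1, (p t).2)) (t + 1) else 0) ≤
        (if s.canL = true then ((s.left.Y : ℝ) - s.Y) else 0) * Gf (Rm p t).toNat +
        (if s.canL = true then (1 : ℝ) else 0) * ((s.Y : ℝ) * Gf (Rm p t).toNat) := by
      split_ifs
      · linarith
      · linarith
    have e3 : (if s.canV = true then
        Fq n (Function.update p (t + 1) ((p t).1, !(p t).2)) (t + 1) else 0) ≤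
        (if s.canV = true then ((s.vert.Y : ℝ) - s.Y) else 0) * Gf (Rm p t).toNat +
        (if s.canV = true then (1 : ℝ) else 0) * ((s.Y : ℝ) * Gf (Rm p t).toNat) := by
      split_ifs
      · linarith
      · linarith
    have e4 := mul_le_mul_of_nonneg_right hkeyR hG.le
    linarith


/-- On the event of escaping to the right the superharmonic function is unbounded. -/
lemma Fq_unbounded {n : ℕ} {q : ℕ → ℤ × Bool} (hq : ∀ t, Legal ladder (0, false) q t)
    (h1 : ∀ k, n ≤ k → 3 ≤ (q k).1) (h2 : ∀ B : ℤ, ∃ k, n ≤ k ∧ B ≤ (q k).1) (a : ℝ) :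
    ∃ t, n ≤ t ∧ a ≤ Fq n q t := by
  classical
  obtain ⟨r, hr1, hr2⟩ := rGf_unbounded a ((Rm q n).toNat + 1)
  have hex : ∃ k, n ≤ k ∧ (r : ℤ) ≤ (q k).1 := h2 r
  set t := Nat.find hex with ht
  have hts := Nat.find_spec hex
  rw [← ht] at hts
  have htm : ∀ k, k < t → n ≤ k → (q k).1 < r := by
    intro k hk hnk
    by_contra hc
    exact Nat.find_min hex hk ⟨hnk, by omega⟩
  have hRn : Rm q n < r := by omega
  have hnt : n < t := by
    rcases Nat.lt_or_ge n t with h | h
    · exact h
    · exfalso
      have : t = n := by omega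
      have h3 := hts.2
      rw [this] at h3
      have h4 := le_Rm q (le_refl n)
      omega
  have hall : ∀ k ≤ t, (q k).1 ≤ r := by
    intro k hk
    rcases Nat.lt_or_ge k t with h | h
    · rcases Nat.lt_or_ge k n with h' | h'
      · have := le_Rm q h'.le
        omega
      · exact (htm k h h').le
    · have hkt : k = t := by omega
      rw [hkt]
      -- the previous position is below `r`
      obtain ⟨t', ht'⟩ : ∃ t', t = t' + 1 := ⟨t - 1, by omega⟩
      have hprev : (q t').1 < r := htm t' (by omega) (by omega)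
      have hc := (hq t).2 t' (by omega)
      rw [ht']
      rcases choices_cases hc with ⟨h5, _⟩ | ⟨h5, _⟩ | ⟨h5, _⟩ <;> rw [h5] <;>
        simp only <;> omega
  have hRt : Rm q t = r := le_antisymm (Rm_le q hall) (hts.2.trans (le_Rm q le_rfl))
  have hxt : (q t).1 = r := le_antisymm (hall t le_rfl) hts.2
  refine ⟨t, hnt.le, ?_⟩
  unfold Fq
  rw [if_pos ⟨hnt.le, fun k hk _ => h1 k hk⟩, hRt, Int.toNat_natCast]
  refine hr2.trans ?_
  apply mul_le_mul_of_nonneg_right _ (Gf_pos r).le
  have h3 : 21 * (stOf q t).x ≤ (stOf q t).Y := St.Y_ge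
  have h4 : (stOf q t).x = r := hxt
  rw [h4] at h3
  exact_mod_cast h3

section Escape

variable {Ω : Type*} [MeasurableSpace Ω] {μ : Measure Ω} {X : ℕ → Ω → ℤ × Bool}

lemma no_escape_right [IsProbabilityMeasure μ] (hX : IsGreedyWalk ladder (0, false) μ X) :
    ∀ᵐ ω ∂μ, ∀ n : ℕ, (∀ k, n ≤ k → 3 ≤ (X k ω).1) → ¬ (∀ B : ℤ, ∃ k, n ≤ k ∧ B ≤ (X k ω).1) := by
  have hnull : ∀ n : ℕ, ∀ᵐ ω ∂μ,
      ¬ (∀ a : ℕ, ∃ t, n ≤ t ∧ (a : ℝ) ≤ Fq n (fun k => X k ω) t) := by
    intro n
    rw [ae_iff]
    simp only [not_not]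
    exact null_unbounded hX ladder_fin (Fq n) (Fq_nonneg n) (Fq_congr n) n
      (fun p t hn hp => Fq_super n p t hn hp)
  filter_upwards [ae_legal hX, ae_all_iff.2 hnull] with ω hleg hω n h1 h2
  apply hω n
  intro a
  exact Fq_unbounded hleg h1 h2 a

end Escape


section Transport

variable {V : Type*} {G : SimpleGraph V} {v₀ : V} {Ω : Type*} [MeasurableSpace Ω]
  {μ : Measure Ω} {X : ℕ → Ω → V}

lemma visited_map (φ : G ≃g G) (p : ℕ → V) (t : ℕ) (a b : V) :
    s(φ a, φ b) ∈ visitedEdges (fun k => φ (p k)) t ↔ s(a, b) ∈ visitedEdges p t := by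
  simp only [visitedEdges, Set.mem_ofPred_eq]
  constructor
  · rintro ⟨s, hs, h⟩
    refine ⟨s, hs, ?_⟩
    rw [Sym2.eq_iff] at h ⊢
    rcases h with ⟨h1, h2⟩ | ⟨h1, h2⟩
    · exact Or.inl ⟨φ.injective h1, φ.injective h2⟩
    · exact Or.inr ⟨φ.injective h1, φ.injective h2⟩
  · rintro ⟨s, hs, h⟩
    refine ⟨s, hs, ?_⟩
    rw [Sym2.eq_iff] at h ⊢
    rcases h with ⟨h1, h2⟩ | ⟨h1, h2⟩
    · exact Or.inl ⟨by rw [h1], by rw [h2]⟩
    · exact Or.inr ⟨by rw [h1], by rw [h2]⟩

lemma fresh_map (φ : G ≃g G) (p : ℕ → V) (t : ℕ) :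
    freshNeighbors G (fun k => φ (p k)) t = φ '' freshNeighbors G p t := by
  ext y
  obtain ⟨z, rfl⟩ := φ.surjective y
  rw [Function.Injective.mem_set_image φ.injective]
  simp only [freshNeighbors, Set.mem_ofPred_eq]
  rw [visited_map, φ.map_adj_iff]

lemma choices_map (φ : G ≃g G) (p : ℕ → V) (t : ℕ) :
    choices G (fun k => φ (p k)) t = φ '' choices G p t := by
  unfold choices
  rw [fresh_map]
  by_cases h : (freshNeighbors G p t).Nonempty
  · rw [if_pos h, if_pos (h.image _)]
  · rw [if_neg h, if_neg (fun h' => h (Set.image_nonempty.1 h'))]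
    ext y
    obtain ⟨z, rfl⟩ := φ.surjective y
    rw [Function.Injective.mem_set_image φ.injective]
    simp only [Set.mem_ofPred_eq]
    rw [φ.map_adj_iff]

lemma stepProb_map (φ : G ≃g G) (p : ℕ → V) (t : ℕ) (y : V) :
    stepProb G (fun k => φ (p k)) t (φ y) = stepProb G p t y := by
  unfold stepProb
  rw [choices_map, Set.ncard_image_of_injective _ φ.injective]
  by_cases h : y ∈ choices G p t
  · rw [if_pos h, if_pos ((Function.Injective.mem_set_image φ.injective).2 h)]
  · rw [if_neg h, if_neg (fun h' => h ((Function.Injective.mem_set_image φ.injective).1 h'))]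

lemma IsGreedyWalk.map (φ : G ≃g G)
    (hX : IsGreedyWalk G v₀ μ X) :
    IsGreedyWalk G (φ v₀) μ (fun t ω => φ (X t ω)) where
  measurable := by
    intro t v
    have : {ω | φ (X t ω) = v} = {ω | X t ω = φ.symm v} := by
      ext ω
      simp only [Set.mem_ofPred_eq]
      exact ⟨fun h => by rw [← h]; simp, fun h => by rw [h]; simp⟩
    rw [this]
    exact hX.measurable t _
  start := by
    filter_upwards [hX.start] with ω h
    rw [h]
  step := by
    intro t p y
    have hp : ∀ (a : V) (b : V), φ a = b ↔ a = φ.symm b := by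
      intro a b
      exact ⟨fun h => by rw [← h]; simp, fun h => by rw [h]; simp⟩
    have h1 : {ω | (∀ k ≤ t, φ (X k ω) = p k) ∧ φ (X (t + 1) ω) = y} =
        {ω | (∀ k ≤ t, X k ω = φ.symm (p k)) ∧ X (t + 1) ω = φ.symm y} := by
      ext ω
      simp only [Set.mem_ofPred_eq, hp]
    have h2 : {ω | ∀ k ≤ t, φ (X k ω) = p k} = {ω | ∀ k ≤ t, X k ω = φ.symm (p k)} := by
      ext ω
      simp only [Set.mem_ofPred_eq, hp]
    rw [h1, h2, hX.step t (fun k => φ.symm (p k)) (φ.symm y)]
    congr 1
    have h3 := stepProb_map φ (fun k => φ.symm (p k)) t (φ.symm y)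
    rw [← h3]
    simp

end Transport

/-- reflection of the ladder -/
def ladderRefl : ladder ≃g ladder where
  toFun u := (-u.1, u.2)
  invFun u := (-u.1, u.2)
  left_inv u := by simp
  right_inv u := by simp
  map_rel_iff' := by
    rintro ⟨a, i⟩ ⟨b, j⟩
    simp only [ladder, Equiv.coe_fn_mk]
    constructor
    · rintro (⟨h1, h2⟩ | ⟨h1, h2⟩)
      · left; exact ⟨h1, by omega⟩
      · right; exact ⟨by omega, h2⟩
    · rintro (⟨h1, h2⟩ | ⟨h1, h2⟩)
      · left; exact ⟨h1, by omega⟩
      · right; exact ⟨by omega, h2⟩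

/-- translation of the ladder moving `(a, c)` to the origin -/
def ladderShift (a : ℤ) (c : Bool) : ladder ≃g ladder where
  toFun u := (u.1 - a, xor u.2 c)
  invFun u := (u.1 + a, xor u.2 c)
  left_inv u := by simp
  right_inv u := by simp
  map_rel_iff' := by
    rintro ⟨x, i⟩ ⟨y, j⟩
    simp only [ladder, Equiv.coe_fn_mk]
    constructor
    · rintro (⟨h1, h2⟩ | ⟨h1, h2⟩)
      · left; exact ⟨by simpa using h1, by omega⟩
      · right; exact ⟨by omega, by simpa using h2⟩
    · rintro (⟨h1, h2⟩ | ⟨h1, h2⟩)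
      · left; exact ⟨by simpa using h1, by omega⟩
      · right; exact ⟨by omega, by simpa using h2⟩

lemma step_small {q : ℕ → ℤ × Bool} (hq : ∀ t, Legal ladder (0, false) q t) (t : ℕ) :
    (q (t + 1)).1 ≤ (q t).1 + 1 ∧ (q t).1 ≤ (q (t + 1)).1 + 1 := by
  have hc := (hq (t + 1)).2 t (by omega)
  rcases choices_cases hc with ⟨h5, _⟩ | ⟨h5, _⟩ | ⟨h5, _⟩ <;> rw [h5] <;> simp only <;> omega

/-- All vertices are visited infinitely often as soon as one is, if this propagates to
neighbours. -/
lemma propagate {P : ℤ × Bool → Prop} (h : ∀ u v, ladder.Adj u v → P u → P v)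
    {u : ℤ × Bool} (hu : P u) (v : ℤ × Bool) : P v := by
  have hstep : ∀ (x : ℤ) (i : Bool), P (x, i) → P (x + 1, i) :=
    fun x i => h _ _ (Or.inl ⟨rfl, Or.inl rfl⟩)
  have hstep' : ∀ (x : ℤ) (i : Bool), P (x, i) → P (x - 1, i) :=
    fun x i => h _ _ (Or.inl ⟨rfl, Or.inr (by simp)⟩)
  have hflip : ∀ (x : ℤ) (i : Bool), P (x, i) → P (x, !i) :=
    fun x i => h _ _ (Or.inr ⟨rfl, by cases i <;> simp⟩)
  obtain ⟨x, i⟩ := u
  obtain ⟨y, j⟩ := v
  have hrow : ∀ y : ℤ, P (y, i) := by
    intro y
    induction y using Int.inductionOn' (b := x) with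
    | zero => exact hu
    | succ k _ ih => exact hstep _ _ ih
    | pred k _ ih => exact hstep' _ _ ih
  by_cases hij : j = i
  · rw [hij]; exact hrow y
  · have : j = !i := by cases i <;> cases j <;> simp_all
    rw [this]
    exact hflip _ _ (hrow y)

/-- deterministic part of the final argument -/
lemma escape_dichotomy {q : ℕ → ℤ × Bool} (hq : ∀ t, Legal ladder (0, false) q t)
    (hfin : ∀ v, ¬ (∃ᶠ k in atTop, q k = v)) :
    (∃ n, (∀ k, n ≤ k → 3 ≤ (q k).1) ∧ (∀ B : ℤ, ∃ k, n ≤ k ∧ B ≤ (q k).1)) ∨
    (∃ n, (∀ k, n ≤ k → 3 ≤ -(q k).1) ∧ (∀ B : ℤ, ∃ k, n ≤ k ∧ B ≤ -(q k).1)) := by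
  -- eventually outside any finite set of columns
  have hout : ∀ B : ℕ, ∃ n, ∀ k, n ≤ k → (B : ℤ) < |(q k).1| := by
    intro B
    have hset : ((Set.Icc (-(B : ℤ)) B) ×ˢ (Set.univ : Set Bool)).Finite :=
      (Set.finite_Icc _ _).prod Set.finite_univ
    have hev : ∀ᶠ k in atTop, ∀ v ∈ ((Set.Icc (-(B : ℤ)) B) ×ˢ (Set.univ : Set Bool)),
        q k ≠ v := by
      rw [hset.eventually_all]
      intro v _
      have := hfin v
      rw [not_frequently] at this
      exact this
    obtain ⟨n, hn⟩ := eventually_atTop.1 hev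
    refine ⟨n, fun k hk => ?_⟩
    by_contra hc
    apply hn k hk (q k) _ rfl
    simp only [Set.mem_prod, Set.mem_Icc, Set.mem_univ, and_true]
    rw [not_lt, abs_le] at hc
    exact hc
  obtain ⟨n, hn⟩ := hout 2
  have hsign : (∀ k, n ≤ k → 3 ≤ (q k).1) ∨ (∀ k, n ≤ k → 3 ≤ -(q k).1) := by
    have h0 := hn n le_rfl
    rcases le_or_gt 0 (q n).1 with h | h
    · left
      intro k hk
      induction k, hk using Nat.le_induction with
      | base => rw [abs_of_nonneg h] at h0; push_cast at h0; omega
      | succ k hk ih =>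
        have h1 := step_small hq k
        have h2 := hn (k + 1) (by omega)
        have h3 : 0 ≤ (q (k + 1)).1 := by omega
        rw [abs_of_nonneg h3] at h2
        push_cast at h2
        omega
    · right
      intro k hk
      induction k, hk using Nat.le_induction with
      | base => rw [abs_of_neg h] at h0; push_cast at h0; omega
      | succ k hk ih =>
        have h1 := step_small hq k
        have h2 := hn (k + 1) (by omega)
        have h3 : (q (k + 1)).1 ≤ 0 := by omega
        rw [abs_of_nonpos h3] at h2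
        push_cast at h2
        omega
  rcases hsign with h | h
  · left
    refine ⟨n, h, fun B => ?_⟩
    obtain ⟨m, hm⟩ := hout B.toNat
    refine ⟨max n m, le_max_left _ _, ?_⟩
    have h1 := hm (max n m) (le_max_right _ _)
    have h2 := h (max n m) (le_max_left _ _)
    rw [abs_of_nonneg (by omega)] at h1
    omega
  · right
    refine ⟨n, h, fun B => ?_⟩
    obtain ⟨m, hm⟩ := hout B.toNat
    refine ⟨max n m, le_max_left _ _, ?_⟩
    have h1 := hm (max n m) (le_max_right _ _)
    have h2 := h (max n m) (le_max_left _ _)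
    rw [abs_of_nonpos (by omega)] at h1
    omega

section Main

variable {Ω : Type*} [MeasurableSpace Ω] {μ : Measure Ω} {X : ℕ → Ω → ℤ × Bool}

theorem recurrent_origin [IsProbabilityMeasure μ] (hX : IsGreedyWalk ladder (0, false) μ X) :
    ∀ᵐ ω ∂μ, ∃ᶠ k in atTop, X k ω = (0, false) := by
  have hnb : ∀ᵐ ω ∂μ, ∀ e : (ℤ × Bool) × (ℤ × Bool), ladder.Adj e.1 e.2 →
      (∃ᶠ k in atTop, X k ω = e.1) → (∃ᶠ k in atTop, X k ω = e.2) := by
    rw [ae_all_iff]
    intro e
    by_cases he : ladder.Adj e.1 e.2
    · filter_upwards [ae_neighbour hX ladder_fin ladder_reg he] with ω hω _ using hω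
    · filter_upwards with ω h
      exact absurd h he
  have hX' : IsGreedyWalk ladder (0, false) μ (fun t ω => ladderRefl (X t ω)) := by
    have := hX.map ladderRefl
    simpa [ladderRefl] using this
  filter_upwards [ae_legal hX, hnb, no_escape_right hX, no_escape_right hX'] with
    ω hleg hω h1 h2
  by_contra hc
  have hfin : ∀ v, ¬ (∃ᶠ k in atTop, X k ω = v) := by
    intro v hv
    apply hc
    exact propagate (P := fun v => ∃ᶠ k in atTop, X k ω = v)
      (fun a b hab => hω (a, b) hab) hv (0, false)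
  rcases escape_dichotomy hleg hfin with ⟨n, h3, h4⟩ | ⟨n, h3, h4⟩
  · exact h1 n h3 h4
  · exact h2 n h3 h4

theorem recurrent [IsProbabilityMeasure μ] {v₀ : ℤ × Bool} (hX : IsGreedyWalk ladder v₀ μ X) :
    ∀ᵐ ω ∂μ, ∃ᶠ k in atTop, X k ω = v₀ := by
  have hX' : IsGreedyWalk ladder (0, false) μ (fun t ω => ladderShift v₀.1 v₀.2 (X t ω)) := by
    have := hX.map (ladderShift v₀.1 v₀.2)
    simpa [ladderShift] using this
  filter_upwards [recurrent_origin hX'] with ω hω
  refine hω.mono ?_
  intro k hk
  have h1 : ladderShift v₀.1 v₀.2 v₀ = (0, false) := by simp [ladderShift]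
  rw [← h1] at hk
  exact (ladderShift v₀.1 v₀.2).injective hk

end Main

/-! ### Existence of the walk -/

section Existence

open Finset


/-- extension of a finite history to a sequence -/
def extHist (n : ℕ) (h : (Π _ : Iic n, ℤ × Bool)) : ℕ → ℤ × Bool :=
  fun k => h ⟨min k n, by simp⟩

lemma choices_nonempty (q : ℕ → ℤ × Bool) (t : ℕ) : (choices ladder q t).Nonempty := by
  unfold choices
  split_ifs with h
  · exact h
  · exact ⟨((q t).1 + 1, (q t).2), Or.inl ⟨rfl, Or.inl rfl⟩⟩

/-- next step distribution -/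
noncomputable def stepPMF (q : ℕ → ℤ × Bool) (t : ℕ) : PMF (ℤ × Bool) :=
  PMF.uniformOfFinset ((ladder_fin (q t)).subset (choices_subset q t)).toFinset
    (by rw [Set.Finite.toFinset_nonempty]; exact choices_nonempty q t)

lemma stepPMF_apply (q : ℕ → ℤ × Bool) (t : ℕ) (y : ℤ × Bool) :
    (stepPMF q t).toMeasure {y} = stepProb ladder q t y := by
  classical
  rw [PMF.toMeasure_apply_singleton _ _ (measurableSet_singleton y)]
  unfold stepPMF stepProb
  rw [PMF.uniformOfFinset_apply]
  simp only [Set.Finite.mem_toFinset]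
  rw [Set.ncard_eq_toFinset_card _ ((ladder_fin (q t)).subset (choices_subset q t))]

noncomputable def stepKernel (n : ℕ) : Kernel (Π _ : Iic n, ℤ × Bool) (ℤ × Bool) :=
  Kernel.ofFunOfCountable (fun h => (stepPMF (extHist n h) n).toMeasure)

instance (n : ℕ) : IsMarkovKernel (stepKernel n) := ⟨fun h => by
  change IsProbabilityMeasure ((stepPMF (extHist n h) n).toMeasure)
  infer_instance⟩

noncomputable def greedyLaw (v₀ : ℤ × Bool) : Measure (ℕ → ℤ × Bool) :=
  Kernel.trajMeasure (X := fun _ => ℤ × Bool) (Measure.dirac v₀) stepKernel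

instance (v₀ : ℤ × Bool) : IsProbabilityMeasure (greedyLaw v₀) := by
  unfold greedyLaw; infer_instance

lemma law_start (v₀ : ℤ × Bool) : ∀ᵐ x ∂(greedyLaw v₀), x 0 = v₀ := by
  have h1 : (greedyLaw v₀).map (frestrictLe (π := fun _ => ℤ × Bool) 0) =
      (Measure.dirac v₀).map
        (MeasurableEquiv.piUnique (fun _ : Iic 0 => ℤ × Bool)).symm := by
    unfold greedyLaw Kernel.trajMeasure
    rw [Measure.map_comp _ _ (by fun_prop), Kernel.traj_map_frestrictLe,
      Kernel.partialTraj_self, Measure.id_comp]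
  have h2 : MeasurableSet {h : (Π _ : Iic 0, ℤ × Bool) | h ⟨0, by simp⟩ ≠ v₀} := by
    apply MeasurableSet.compl
    have hm : Measurable (fun h : (Π _ : Iic 0, ℤ × Bool) => h ⟨0, by simp⟩) :=
      measurable_pi_apply _
    exact hm (measurableSet_singleton v₀)
  have h3 : (greedyLaw v₀).map (frestrictLe (π := fun _ => ℤ × Bool) 0)
      {h : (Π _ : Iic 0, ℤ × Bool) | h ⟨0, by simp⟩ ≠ v₀} = 0 := by
    have h4 := Measure.map_dirac'
      (MeasurableEquiv.measurable (MeasurableEquiv.piUnique (fun _ : Iic 0 => ℤ × Bool)).symm) v₀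
    rw [h1]
    erw [h4]
    rw [Measure.dirac_apply' _ h2]
    simp [MeasurableEquiv.piUnique]
  rw [Measure.map_apply (by fun_prop) h2] at h3
  rw [ae_iff]
  exact h3

theorem law_isGreedyWalk (v₀ : ℤ × Bool) :
    IsGreedyWalk ladder v₀ (greedyLaw v₀) (fun t x => x t) where
  measurable := by
    intro t v
    have hm : Measurable (fun x : ℕ → ℤ × Bool => x t) := measurable_pi_apply t
    exact hm (measurableSet_singleton v)
  start := law_start v₀
  step := by
    intro t p y
    set c : (Π _ : Iic t, ℤ × Bool) := fun i => p i with hc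
    have h := Kernel.map_frestrictLe_trajMeasure_compProd_eq_map_trajMeasure
      (X := fun _ => ℤ × Bool) (κ := stepKernel) (μ₀ := Measure.dirac v₀) (a := t)
    change (greedyLaw v₀).map (frestrictLe t) ⊗ₘ stepKernel t =
      (greedyLaw v₀).map (fun x ↦ (frestrictLe t x, x (t + 1))) at h
    have hset : {x : ℕ → ℤ × Bool | (∀ k ≤ t, x k = p k) ∧ x (t + 1) = y} =
        (fun x : ℕ → ℤ × Bool ↦ (frestrictLe (π := fun _ => ℤ × Bool) t x, x (t + 1))) ⁻¹'
          ({c} ×ˢ {y}) := by
      ext x
      simp only [Set.mem_ofPred_eq, Set.mem_preimage, Set.mem_prod, Set.mem_singleton_iff]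
      constructor
      · rintro ⟨h1, h2⟩
        refine ⟨?_, h2⟩
        funext i
        exact h1 i (Finset.mem_Iic.1 i.2)
      · rintro ⟨h1, h2⟩
        refine ⟨fun k hk => ?_, h2⟩
        exact congrFun h1 ⟨k, by simpa using hk⟩
    have hset2 : {x : ℕ → ℤ × Bool | ∀ k ≤ t, x k = p k} =
        (frestrictLe (π := fun _ => ℤ × Bool) t) ⁻¹' {c} := by
      ext x
      simp only [Set.mem_ofPred_eq, Set.mem_preimage, Set.mem_singleton_iff]
      constructor
      · intro h1
        funext i
        exact h1 i (Finset.mem_Iic.1 i.2)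
      · intro h1 k hk
        exact congrFun h1 ⟨k, by simpa using hk⟩
    have hcm : MeasurableSet ({c} : Set (Π _ : Iic t, ℤ × Bool)) := measurableSet_singleton c
    rw [hset, hset2, ← Measure.map_apply (by fun_prop) (hcm.prod (measurableSet_singleton y)), ← h,
      Measure.compProd_apply_prod hcm (measurableSet_singleton y), lintegral_singleton,
      ← Measure.map_apply (by fun_prop) hcm]
    rw [mul_comm]
    congr 1
    change (stepPMF (extHist t c) t).toMeasure {y} = _
    rw [stepPMF_apply]
    unfold stepProb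
    have hext : ∀ k ≤ t, extHist t c k = p k := by
      intro k hk
      simp [extHist, hc, hk]
    rw [choices_congr hext]

end Existence

universe u

/-- **Recurrence of the greedy random walk on the ladder.** For every vertex `v₀` of the ladder a
greedy random walk started at `v₀` exists, and every greedy random walk on the ladder started
at `v₀` almost surely visits `v₀` infinitely often. -/
theorem result (v₀ : ℤ × Bool) :
    (∃ μ : Measure (ℕ → ℤ × Bool), IsProbabilityMeasure μ ∧
      IsGreedyWalk ladder v₀ μ (fun t x => x t)) ∧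
    ∀ {Ω : Type u} [MeasurableSpace Ω] (μ : Measure Ω) [IsProbabilityMeasure μ]
      (X : ℕ → Ω → ℤ × Bool), IsGreedyWalk ladder v₀ μ X →
      ∀ᵐ ω ∂μ, ∃ᶠ t in atTop, X t ω = v₀ :=
  ⟨⟨greedyLaw v₀, inferInstance, law_isGreedyWalk v₀⟩, fun _ _ _ hX => recurrent hX⟩

end Pool.Agent.Results.MP_1d885b_pr.LadderRecurrent
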